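import Mathlib

/-! Axis-parallel squares inside a rotated square (frame packings). -/

namespace Pool.H71.SQ

open Finset MeasureTheory

/-- A packing of axis-parallel squares `[X i, X i + a i] × [Y i, Y i + a i]` in the rotated square
`K = {0 ≤ c x - s y ≤ k, 0 ≤ s x + c y ≤ k}` (with `0 ≤ s`, `0 ≤ c`). -/
structure FP {ι : Type} (k : ℕ) (c s : ℝ) (X Y a : ι → ℝ) : Prop where
  pos : ∀ i, 0 < a i
  h1 : ∀ i, 0 ≤ c * X i - s * (Y i + a i)
  h2 : ∀ i, c * (X i + a i) - s * Y i ≤ k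
  h3 : ∀ i, 0 ≤ s * X i + c * Y i
  h4 : ∀ i, s * (X i + a i) + c * (Y i + a i) ≤ k
  sep : ∀ i j, i ≠ j → X i + a i ≤ X j ∨ X j + a j ≤ X i ∨ Y i + a i ≤ Y j ∨ Y j + a j ≤ Y i

variable {ι : Type} {k : ℕ} {c s : ℝ} {X Y a : ι → ℝ}

/-- The rotation by a quarter turn. -/
lemma FP.rot (h : FP k c s X Y a) (hcs : c ^ 2 + s ^ 2 = 1) :
    FP k c s (fun i => k * c - Y i - a i) (fun i => X i - k * s) a where
  pos := h.pos
  h1 := fun i => by
    have := h.h4 i
    have e : c * (k * c - Y i - a i) - s * (X i - k * s + a i)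
        = k * (c ^ 2 + s ^ 2) - (s * (X i + a i) + c * (Y i + a i)) := by ring
    rw [e, hcs]; linarith
  h2 := fun i => by
    have := h.h3 i
    have e : c * (k * c - Y i - a i + a i) - s * (X i - k * s)
        = k * (c ^ 2 + s ^ 2) - (s * X i + c * Y i) := by ring
    rw [e, hcs]; linarith
  h3 := fun i => by
    have := h.h1 i
    have e : s * (k * c - Y i - a i) + c * (X i - k * s)
        = c * X i - s * (Y i + a i) := by ring
    rw [e]; linarith
  h4 := fun i => by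
    have := h.h2 i
    have e : s * (k * c - Y i - a i + a i) + c * (X i - k * s + a i)
        = c * (X i + a i) - s * Y i := by ring
    rw [e]; linarith
  sep := fun i j hij => by
    rcases h.sep i j hij with h' | h' | h' | h'
    · right; right; left; linarith
    · right; right; right; linarith
    · right; left; linarith
    · left; linarith

/-- Disjoint intervals inside `[lo, hi]` have total length at most `hi - lo`. -/
lemma sum_len_le (F : Finset ι) (Y a : ι → ℝ) (lo hi : ℝ) (hlh : lo ≤ hi)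
    (hpos : ∀ i ∈ F, 0 < a i) (hlo : ∀ i ∈ F, lo ≤ Y i) (hhi : ∀ i ∈ F, Y i + a i ≤ hi)
    (hsep : ∀ i ∈ F, ∀ j ∈ F, i ≠ j → Y i + a i ≤ Y j ∨ Y j + a j ≤ Y i) :
    ∑ i ∈ F, a i ≤ hi - lo := by
  classical
  have hd : Set.PairwiseDisjoint (↑F) (fun i => Set.Ioo (Y i) (Y i + a i)) := by
    intro i hi' j hj' hij
    rw [Function.onFun, Set.disjoint_left]
    rintro x ⟨h1, h2⟩ ⟨h3, h4⟩
    rcases hsep i hi' j hj' hij with h' | h'
    · linarith
    · linarith
  have hm : volume (⋃ i ∈ F, Set.Ioo (Y i) (Y i + a i)) = ∑ i ∈ F, volume (Set.Ioo (Y i) (Y i + a i)) :=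
    measure_biUnion_finset hd (fun i _ => measurableSet_Ioo)
  have hsub : (⋃ i ∈ F, Set.Ioo (Y i) (Y i + a i)) ⊆ Set.Icc lo hi := by
    intro x hx
    simp only [Set.mem_iUnion] at hx
    obtain ⟨i, hi', hx1, hx2⟩ := hx
    exact ⟨by linarith [hlo i hi'], by linarith [hhi i hi']⟩
  have h1 := measure_mono (μ := volume) hsub
  rw [hm] at h1
  simp only [Real.volume_Ioo, Real.volume_Icc, add_sub_cancel_left] at h1
  rw [← ENNReal.ofReal_sum_of_nonneg (fun i hi' => (hpos i hi').le)] at h1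
  exact (ENNReal.ofReal_le_ofReal_iff (by linarith)).1 h1

section pts

/-- number of integers `m` with `z < m + u ≤ z + a` -/
noncomputable def P (z a u : ℝ) : ℕ := (Finset.Ioc ⌊z - u⌋ ⌊z + a - u⌋).card

lemma P_cast (z a u : ℝ) (ha : 0 ≤ a) : (P z a u : ℝ) = ⌊z + a - u⌋ - ⌊z - u⌋ := by
  unfold P
  rw [Int.card_Ioc]
  have : ⌊z - u⌋ ≤ ⌊z + a - u⌋ := Int.floor_le_floor (by linarith)
  have h2 : ((⌊z + a - u⌋ - ⌊z - u⌋).toNat : ℤ) = ⌊z + a - u⌋ - ⌊z - u⌋ := Int.toNat_of_nonneg (by linarith)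
  have h3 : (((⌊z + a - u⌋ - ⌊z - u⌋).toNat : ℤ) : ℝ) = ((⌊z + a - u⌋ - ⌊z - u⌋ : ℤ) : ℝ) := by rw [h2]
  push_cast at h3
  exact h3

lemma mem_P (z a u : ℝ) (m : ℤ) : m ∈ Finset.Ioc ⌊z - u⌋ ⌊z + a - u⌋ ↔ z < m + u ∧ m + u ≤ z + a := by
  rw [Finset.mem_Ioc, Int.floor_lt, Int.le_floor]
  constructor
  · rintro ⟨h1, h2⟩; constructor <;> linarith
  · rintro ⟨h1, h2⟩; constructor <;> linarith

lemma one_le_P (z a u : ℝ) (ha : 1 ≤ a) : 1 ≤ P z a u := by
  have h : (⌊z - u⌋ + 1 : ℤ) ≤ ⌊z + a - u⌋ := by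
    rw [Int.le_floor]; push_cast
    linarith [Int.floor_le (z - u)]
  unfold P
  rw [Int.card_Ioc]
  omega

lemma P_le_one (z a u : ℝ) (ha : a ≤ 1) : P z a u ≤ 1 := by
  have h : ⌊z + a - u⌋ ≤ (⌊z - u⌋ + 1 : ℤ) := by
    rw [← Int.floor_add_one]
    exact Int.floor_le_floor (by linarith)
  unfold P
  rw [Int.card_Ioc]
  omega

lemma P_mul_a (z a u : ℝ) : 0 ≤ ((P z a u : ℝ) - 1) * (a - 1) := by
  rcases le_total 1 a with h | h
  · have : (1 : ℝ) ≤ P z a u := by exact_mod_cast one_le_P z a u h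
    exact mul_nonneg (by linarith) (by linarith)
  · have : (P z a u : ℝ) ≤ 1 := by exact_mod_cast P_le_one z a u h
    exact mul_nonneg_of_nonpos_of_nonpos (by linarith) (by linarith)

lemma P_mul_P (z z' a u u' : ℝ) : 0 ≤ ((P z a u : ℝ) - 1) * ((P z' a u' : ℝ) - 1) := by
  rcases le_total 1 a with h | h
  · have : (1 : ℝ) ≤ P z a u := by exact_mod_cast one_le_P z a u h
    have : (1 : ℝ) ≤ P z' a u' := by exact_mod_cast one_le_P z' a u' h
    exact mul_nonneg (by linarith) (by linarith)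
  · have : (P z a u : ℝ) ≤ 1 := by exact_mod_cast P_le_one z a u h
    have : (P z' a u' : ℝ) ≤ 1 := by exact_mod_cast P_le_one z' a u' h
    exact mul_nonneg_of_nonpos_of_nonpos (by linarith) (by linarith)

end pts

end Pool.H71.SQ
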