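import Pool.Agent.H71.SQ.PartB

/-! The frame theorem for all directions. -/

namespace Pool.H71.SQ

open Finset MeasureTheory

/-- Axis-parallel squares in the rotated square, any `(c, s)` on the unit circle. -/
structure GP {ι : Type} (k : ℕ) (c s : ℝ) (X Y a : ι → ℝ) : Prop where
  pos : ∀ i, 0 < a i
  inK : ∀ i x y, X i ≤ x → x ≤ X i + a i → Y i ≤ y → y ≤ Y i + a i →
    (0 ≤ c * x - s * y ∧ c * x - s * y ≤ k ∧ 0 ≤ s * x + c * y ∧ s * x + c * y ≤ k)
  sep : ∀ i j, i ≠ j → X i + a i ≤ X j ∨ X j + a j ≤ X i ∨ Y i + a i ≤ Y j ∨ Y j + a j ≤ Y i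

variable {ι : Type} {k : ℕ} {c s : ℝ} {X Y a : ι → ℝ}

lemma GP.toFP (h : GP k c s X Y a) : FP k c s X Y a where
  pos := h.pos
  h1 := fun i => (h.inK i (X i) (Y i + a i) le_rfl (by linarith [h.pos i]) (by linarith [h.pos i]) le_rfl).1
  h2 := fun i => (h.inK i (X i + a i) (Y i) (by linarith [h.pos i]) le_rfl le_rfl (by linarith [h.pos i])).2.1
  h3 := fun i => (h.inK i (X i) (Y i) le_rfl (by linarith [h.pos i]) le_rfl (by linarith [h.pos i])).2.2.1
  h4 := fun i => (h.inK i (X i + a i) (Y i + a i) (by linarith [h.pos i]) le_rfl (by linarith [h.pos i]) le_rfl).2.2.2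
  sep := h.sep

lemma GP.rot (h : GP k c s X Y a) : GP k (-s) c Y (fun i => -X i - a i) a where
  pos := h.pos
  inK := fun i x y h1 h2 h3 h4 => by
    obtain ⟨e1, e2, e3, e4⟩ := h.inK i (-y) x (by linarith) (by linarith) h1 h2
    refine ⟨?_, ?_, ?_, ?_⟩ <;> linarith
  sep := fun i j hij => by
    rcases h.sep i j hij with h' | h' | h' | h'
    · right; right; right; linarith
    · right; right; left; linarith
    · left; exact h'
    · right; left; exact h'

lemma GP.refl (h : GP k c s X Y a) : GP k c (-s) Y X a where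
  pos := h.pos
  inK := fun i x y h1 h2 h3 h4 => by
    obtain ⟨e1, e2, e3, e4⟩ := h.inK i y x h3 h4 h1 h2
    refine ⟨?_, ?_, ?_, ?_⟩ <;> linarith
  sep := fun i j hij => by
    rcases h.sep i j hij with h' | h' | h' | h'
    · right; right; left; exact h'
    · right; right; right; exact h'
    · left; exact h'
    · right; left; exact h'

/-- The frame theorem, `0 ≤ s ≤ c`. -/
theorem FP.main [Fintype ι] (h : FP k c s X Y a) (hk : 1 ≤ k) (hodd : Odd (Fintype.card ι + k))
    (hcs : c ^ 2 + s ^ 2 = 1) (hs : 0 ≤ s) (hsc : s ≤ c) :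
    2 * ∑ i, a i ≤ Fintype.card ι + (k : ℝ) ^ 2 - 1 := by
  have hc : 0 < c := by
    rcases (hs.trans hsc).eq_or_lt with h0 | h0
    · exfalso
      rw [← h0] at hsc hcs
      have : s = 0 := le_antisymm hsc hs
      rw [this] at hcs; norm_num at hcs
    · exact h0
  rcases le_total (k * s) 1 with hks | hks
  · obtain ⟨T, hT⟩ : ∃ T : ℕ, 2 * T + 1 = Fintype.card ι + k ^ 2 := by
      have h2 : Odd (Fintype.card ι + k ^ 2) := by
        have e : Even (k ^ 2 + k) := by
          have := Nat.even_mul_succ_self k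
          rw [show k ^ 2 + k = k * (k + 1) by ring]; exact this
        rcases Nat.even_or_odd (Fintype.card ι + k ^ 2) with h3 | h3
        · exfalso
          have h4 := h3.add e
          have h5 : Odd (Fintype.card ι + k + 2 * k ^ 2) := hodd.add_even ⟨k ^ 2, by ring⟩
          have h6 : Fintype.card ι + k ^ 2 + (k ^ 2 + k) = Fintype.card ι + k + 2 * k ^ 2 := by ring
          rw [h6] at h4
          exact (Nat.not_even_iff_odd.2 h5) h4
        · exact h3
      obtain ⟨T, hT⟩ := h2
      exact ⟨T, hT.symm⟩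
    have h3 := h.partA hk hcs hc hs hks T hT
    have h4 : 2 * (T : ℝ) + 1 = Fintype.card ι + (k : ℝ) ^ 2 := by exact_mod_cast hT
    linarith
  · exact h.partB hcs hc hs hsc hks

lemma GP.main1 [Fintype ι] (h : GP k c s X Y a) (hk : 1 ≤ k) (hodd : Odd (Fintype.card ι + k))
    (hcs : c ^ 2 + s ^ 2 = 1) (h1 : -c ≤ s) (h2 : s ≤ c) :
    2 * ∑ i, a i ≤ Fintype.card ι + (k : ℝ) ^ 2 - 1 := by
  rcases le_total 0 s with h0 | h0
  · exact h.toFP.main hk hodd hcs h0 h2
  · exact h.refl.toFP.main hk hodd (by rw [neg_sq]; exact hcs) (by linarith) (by linarith)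

/-- The frame theorem. -/
theorem GP.main [Fintype ι] (h : GP k c s X Y a) (hk : 1 ≤ k) (hodd : Odd (Fintype.card ι + k))
    (hcs : c ^ 2 + s ^ 2 = 1) :
    2 * ∑ i, a i ≤ Fintype.card ι + (k : ℝ) ^ 2 - 1 := by
  rcases le_total s c with h1 | h1
  · rcases le_total (-c) s with h2 | h2
    · exact h.main1 hk hodd hcs h2 h1
    · -- s ≤ c, s ≤ -c : rotate once
      refine h.rot.main1 hk hodd ?_ (by linarith) (by linarith)
      rw [neg_sq, add_comm]; exact hcs
  · rcases le_total (-c) s with h2 | h2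
    · -- c ≤ s, -c ≤ s : rotate three times
      refine h.rot.rot.rot.main1 hk hodd ?_ (by linarith) (by linarith)
      rw [neg_neg, neg_sq, add_comm]; exact hcs
    · -- c ≤ s ≤ -c : rotate twice
      refine h.rot.rot.main1 hk hodd ?_ (by linarith) (by linarith)
      rw [neg_sq, neg_sq]; exact hcs

end Pool.H71.SQ
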