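import Pool.Agent.H71.SQ.Basic

/-! The staircase area below the squares (Part B). -/

namespace Pool.H71.SQ

open Finset MeasureTheory

/-- depth of the staircase: `E x = max (0, max_{X i < x} (-Y i))` -/
noncomputable def E {ι : Type} [Fintype ι] (X Y : ι → ℝ) (x : ℝ) : ℝ :=
  ((Finset.univ.sup (fun i => if X i < x then (-Y i).toNNReal else 0) : NNReal) : ℝ)

/-- the penalty -/
noncomputable def phi (α a : ℝ) : ℝ := if α ≤ a then 0 else if α / 2 ≤ a then a * (α - a) else α ^ 2 / 4

lemma phi_nonneg (α a : ℝ) (ha : 0 ≤ a) : 0 ≤ phi α a := by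
  unfold phi
  split_ifs with h1 h2
  · exact le_rfl
  · exact mul_nonneg ha (by linarith)
  · positivity

lemma phi_key (α b r : ℝ) (hr : 0 ≤ r) : α * r - phi α b ≤ r * max b r := by
  have hb1 : b ≤ max b r := le_max_left _ _
  have hb2 : r ≤ max b r := le_max_right _ _
  unfold phi
  split_ifs with h1 h2
  · nlinarith [mul_le_mul_of_nonneg_left (h1.trans hb1) hr]
  · rcases le_total r b with h | h
    · rw [max_eq_left h]
      nlinarith [mul_nonneg (sub_nonneg.2 h) (sub_nonneg.2 (not_le.1 h1).le)]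
    · rw [max_eq_right h]
      nlinarith [mul_nonneg (sub_nonneg.2 h) (sub_nonneg.2 h2)]
  · nlinarith [sq_nonneg (r - α / 2), mul_le_mul_of_nonneg_left hb2 hr]

/-- `(1 - a)^2 ≥ 4 m φ_α(a)` when `α + m α^2 ≤ 1` -/
lemma phi_le (m α a : ℝ) (hm : 0 ≤ m) (h : α + m * α ^ 2 ≤ 1) : 4 * m * phi α a ≤ (1 - a) ^ 2 := by
  unfold phi
  split_ifs with h1 h2
  · rw [mul_zero]; positivity
  · have e : (1 + 4 * m) * ((1 - a) ^ 2 - 4 * m * (a * (α - a)))
        = ((1 + 4 * m) * a - (1 + 2 * m * α)) ^ 2 + 4 * m * (1 - (α + m * α ^ 2)) := by ring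
    have h3 : 0 ≤ (1 + 4 * m) * ((1 - a) ^ 2 - 4 * m * (a * (α - a))) := by
      rw [e]
      have := mul_nonneg hm (sub_nonneg.2 h)
      nlinarith [sq_nonneg ((1 + 4 * m) * a - (1 + 2 * m * α))]
    have h4 := nonneg_of_mul_nonneg_right h3 (by linarith)
    linarith
  · have h3 : a < α / 2 := not_le.1 h2
    have hα1 : α ≤ 1 := by nlinarith [mul_nonneg hm (sq_nonneg α)]
    have h4 : (1 - α / 2) ^ 2 ≤ (1 - a) ^ 2 := by nlinarith
    nlinarith [sq_nonneg α]

variable {ι : Type} [Fintype ι]

lemma E_nonneg (X Y : ι → ℝ) (x : ℝ) : 0 ≤ E X Y x := NNReal.coe_nonneg _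

lemma le_E (X Y : ι → ℝ) (x : ℝ) (i : ι) (hi : X i < x) : -Y i ≤ E X Y x := by
  have h : (-Y i).toNNReal ≤ Finset.univ.sup (fun i => if X i < x then (-Y i).toNNReal else 0) := by
    have := Finset.le_sup (f := fun i => if X i < x then (-Y i).toNNReal else 0) (Finset.mem_univ i)
    simp only [if_pos hi] at this
    exact this
  exact le_trans (Real.le_coe_toNNReal _) (NNReal.coe_le_coe.2 h)

lemma E_le (X Y : ι → ℝ) (x b : ℝ) (hb : 0 ≤ b) (h : ∀ i, X i < x → -Y i ≤ b) : E X Y x ≤ b := by
  have h1 : Finset.univ.sup (fun i => if X i < x then (-Y i).toNNReal else 0) ≤ b.toNNReal := by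
    refine Finset.sup_le (fun i _ => ?_)
    split_ifs with hi
    · exact Real.toNNReal_le_toNNReal (h i hi)
    · exact bot_le
  have h2 := NNReal.coe_le_coe.2 h1
  rw [Real.coe_toNNReal b hb] at h2
  exact h2

lemma E_mono (X Y : ι → ℝ) : Monotone (E X Y) := by
  intro x x' hxx'
  exact E_le X Y x _ (E_nonneg X Y x') (fun i hi => le_E X Y x' i (lt_of_lt_of_le hi hxx'))

lemma E_intervalIntegrable (X Y : ι → ℝ) (u v : ℝ) : IntervalIntegrable (E X Y) volume u v :=
  (E_mono X Y).intervalIntegrable

/-- the staircase area -/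
noncomputable def F (m : ℝ) (X Y : ι → ℝ) (w : ℝ) : ℝ := ∫ x in (0 : ℝ)..w, (m * x - E X Y x)

lemma F_int (m : ℝ) (X Y : ι → ℝ) (u v : ℝ) : IntervalIntegrable (fun x => m * x - E X Y x) volume u v :=
  ((continuous_const.mul continuous_id).intervalIntegrable _ _).sub (E_intervalIntegrable X Y u v)

lemma F_base (m : ℝ) (X Y : ι → ℝ) (w : ℝ) (hw : 0 ≤ w) (h : ∀ i, X i < w → 0 ≤ Y i) :
    F m X Y w = m * w ^ 2 / 2 := by
  have h1 : ∫ x in (0 : ℝ)..w, (m * x - E X Y x) = ∫ x in (0 : ℝ)..w, m * x := by
    refine intervalIntegral.integral_congr_ae (Filter.Eventually.of_forall (fun x hx => ?_))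
    rw [Set.uIoc_of_le hw] at hx
    have : E X Y x = 0 := by
      refine le_antisymm (E_le X Y x 0 le_rfl (fun i hi => ?_)) (E_nonneg X Y x)
      have := h i (lt_of_lt_of_le hi hx.2)
      linarith
    rw [this, sub_zero]
  unfold F
  rw [h1, intervalIntegral.integral_const_mul, integral_id]
  ring

lemma F_step (m : ℝ) (X Y : ι → ℝ) (w : ℝ) (j : ι) (hj : X j < w) (hY : Y j ≤ 0)
    (h : ∀ i, X i < w → Y j ≤ Y i) :
    F m X Y w = F m X Y (X j) + (m * (w ^ 2 - X j ^ 2) / 2 + Y j * (w - X j)) := by
  have h1 : ∫ x in (X j)..w, (m * x - E X Y x) = ∫ x in (X j)..w, (m * x + Y j) := by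
    refine intervalIntegral.integral_congr_ae (Filter.Eventually.of_forall (fun x hx => ?_))
    rw [Set.uIoc_of_le hj.le] at hx
    have : E X Y x = -Y j := by
      refine le_antisymm (E_le X Y x _ (by linarith) (fun i hi => ?_)) (le_E X Y x j hx.1)
      have := h i (lt_of_lt_of_le hi hx.2)
      linarith
    rw [this, sub_neg_eq_add]
  have h2 : ∫ x in (X j)..w, (m * x + Y j) = m * (w ^ 2 - X j ^ 2) / 2 + Y j * (w - X j) := by
    rw [intervalIntegral.integral_add (f := fun x => m * x) (g := fun _ => Y j)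
      ((continuous_const.mul continuous_id).intervalIntegrable _ _) intervalIntegrable_const, intervalIntegral.integral_const_mul, integral_id, intervalIntegral.integral_const]
    simp only [smul_eq_mul]; ring
  unfold F
  rw [← h2, ← h1]
  exact (intervalIntegral.integral_add_adjacent_intervals (F_int m X Y _ _) (F_int m X Y _ _)).symm

/-- choice of the deepest square -/
lemma exists_deep (X Y : ι → ℝ) (w : ℝ) (h : ¬ ∀ i, X i < w → 0 ≤ Y i) :
    ∃ j, X j < w ∧ Y j < 0 ∧ (∀ i, X i < w → Y j ≤ Y i) ∧ (∀ i, X i < X j → Y j < Y i) := by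
  classical
  push Not at h
  obtain ⟨i0, hi0, hi0'⟩ := h
  obtain ⟨j1, hj1, hmin1⟩ := Finset.exists_min_image (Finset.univ.filter (fun i => X i < w)) Y
    ⟨i0, by simp [hi0]⟩
  simp only [Finset.mem_filter, Finset.mem_univ, true_and] at hj1 hmin1
  obtain ⟨j, hj, hmin⟩ := Finset.exists_min_image (Finset.univ.filter (fun i => X i < w ∧ Y i = Y j1)) X
    ⟨j1, by simp [hj1]⟩
  simp only [Finset.mem_filter, Finset.mem_univ, true_and] at hj hmin
  refine ⟨j, hj.1, ?_, ?_, ?_⟩
  · rw [hj.2]; exact lt_of_le_of_lt (hmin1 i0 hi0) hi0'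
  · intro i hi; rw [hj.2]; exact hmin1 i hi
  · intro i hi
    have hiw : X i < w := hi.trans hj.1
    rw [hj.2]
    refine lt_of_le_of_ne (hmin1 i hiw) (fun he => ?_)
    have := hmin i ⟨hiw, he.symm⟩
    linarith

/-- the inductive statement -/
lemma F_ind (m α : ℝ) (hm : 0 ≤ m) (hm1 : m ≤ 1) (X Y a : ι → ℝ) (hX : ∀ i, 0 ≤ X i)
    (ha : ∀ i, 0 < a i) (hline : ∀ i, 0 ≤ Y i + m * X i)
    (hsep : ∀ i j, i ≠ j → X i + a i ≤ X j ∨ X j + a j ≤ X i ∨ Y i + a i ≤ Y j ∨ Y j + a j ≤ Y i) :
    ∀ (N : ℕ) (q : ι), (Finset.univ.filter (fun i => X i < X q)).card ≤ N → (∀ i, X i < X q → Y q < Y i) →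
      m / 2 * α * X q - m / 8 * α ^ 2 - m * ∑ i ∈ Finset.univ.filter (fun i => X i < X q), phi α (a i)
        - m / 2 * phi α (a q) ≤ F m X Y (X q) := by
  classical
  intro N
  induction N with
  | zero =>
    intro q hq hlow
    have h0 : ∀ i, ¬ X i < X q := by
      intro i hi
      have : i ∈ Finset.univ.filter (fun i => X i < X q) := by simp [hi]
      have h2 := Finset.card_pos.2 ⟨i, this⟩
      omega
    have hb := F_base m X Y (X q) (hX q) (fun i hi => absurd hi (h0 i))
    have hs : ∑ i ∈ Finset.univ.filter (fun i => X i < X q), phi α (a i) = 0 := by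
      rw [Finset.sum_eq_zero]
      intro i hi
      simp only [Finset.mem_filter, Finset.mem_univ, true_and] at hi
      exact absurd hi (h0 i)
    rw [hb, hs]
    have := mul_nonneg hm (phi_nonneg α (a q) (ha q).le)
    nlinarith [mul_nonneg hm (sq_nonneg (X q - α / 2))]
  | succ N ih =>
    intro q hq hlow
    by_cases hall : ∀ i, X i < X q → 0 ≤ Y i
    · have hb := F_base m X Y (X q) (hX q) hall
      rw [hb]
      have h1 := mul_nonneg hm (phi_nonneg α (a q) (ha q).le)
      have h2 : 0 ≤ m * ∑ i ∈ Finset.univ.filter (fun i => X i < X q), phi α (a i) :=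
        mul_nonneg hm (Finset.sum_nonneg (fun i _ => phi_nonneg α (a i) (ha i).le))
      nlinarith [mul_nonneg hm (sq_nonneg (X q - α / 2))]
    · obtain ⟨j, hjw, hjneg, hjmin, hjstrict⟩ := exists_deep X Y (X q) hall
      have hsub : Finset.univ.filter (fun i => X i < X j) ⊂ Finset.univ.filter (fun i => X i < X q) := by
        rw [Finset.ssubset_iff_subset_ne]
        refine ⟨fun i hi => ?_, fun he => ?_⟩
        · simp only [Finset.mem_filter, Finset.mem_univ, true_and] at hi ⊢
          exact hi.trans hjw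
        · have : j ∈ Finset.univ.filter (fun i => X i < X q) := by simp [hjw]
          rw [← he] at this
          simp at this
      have hcard := Finset.card_lt_card hsub
      have hih := ih j (by omega) hjstrict
      have hstep := F_step m X Y (X q) j hjw hjneg.le hjmin
      set r := X q - X j with hr
      have hr0 : 0 < r := by rw [hr]; linarith
      set t := Y j + m * X j with ht
      have ht0 : 0 ≤ t := hline j
      have hterm : m * (X q ^ 2 - X j ^ 2) / 2 + Y j * (X q - X j) = r * t + m * r ^ 2 / 2 := by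
        rw [hr, ht]; ring
      -- the key estimate
      have hkey : m / 2 * r * max (min (a j) (a q)) r ≤ r * t + m * r ^ 2 / 2 := by
        have hne : j ≠ q := by
          intro he; rw [he] at hjw; exact lt_irrefl _ hjw
        have hcase : a j ≤ r ∨ m * (a q - r) ≤ t := by
          rcases hsep j q hne with h' | h' | h' | h'
          · left; rw [hr]; linarith
          · exfalso; linarith [ha q]
          · exfalso; linarith [hlow j hjw, ha j]
          · right
            have := hline q
            rw [ht, hr]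
            nlinarith [ha q, mul_le_mul_of_nonneg_right hm1 (ha q).le]
        have hmr : 0 ≤ m / 2 * r := by positivity
        have hrt : 0 ≤ r * t := mul_nonneg hr0.le ht0
        rcases hcase with h' | h'
        · have : max (min (a j) (a q)) r = r := max_eq_right ((min_le_left _ _).trans h')
          rw [this]; nlinarith
        · rcases le_total (a q) r with h'' | h''
          · have : max (min (a j) (a q)) r = r := max_eq_right ((min_le_right _ _).trans h'')
            rw [this]; nlinarith
          · have h3 : max (min (a j) (a q)) r ≤ a q := max_le (min_le_right _ _) h''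
            have h4 := mul_le_mul_of_nonneg_left h3 hmr
            have h5 := mul_le_mul_of_nonneg_left h' hr0.le
            have h6 : 0 ≤ m * r * (a q - r) := mul_nonneg (mul_nonneg hm hr0.le) (sub_nonneg.2 h'')
            nlinarith
      have hphi : phi α (min (a j) (a q)) ≤ phi α (a j) + phi α (a q) := by
        rcases le_total (a j) (a q) with h' | h'
        · rw [min_eq_left h']; linarith [phi_nonneg α (a q) (ha q).le]
        · rw [min_eq_right h']; linarith [phi_nonneg α (a j) (ha j).le]
      have hk2 := phi_key α (min (a j) (a q)) r hr0.le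
      have hk3 : m / 2 * (α * r - (phi α (a j) + phi α (a q))) ≤ r * t + m * r ^ 2 / 2 := by
        refine le_trans ?_ hkey
        have h7 : α * r - (phi α (a j) + phi α (a q)) ≤ r * max (min (a j) (a q)) r := by linarith
        have h8 := mul_le_mul_of_nonneg_left h7 (by linarith : 0 ≤ m / 2)
        linarith
      have hsum : ∑ i ∈ Finset.univ.filter (fun i => X i < X j), phi α (a i) + phi α (a j)
          ≤ ∑ i ∈ Finset.univ.filter (fun i => X i < X q), phi α (a i) := by
        have hjn : j ∉ Finset.univ.filter (fun i => X i < X j) := by simp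
        have hins : ∑ i ∈ insert j (Finset.univ.filter (fun i => X i < X j)), phi α (a i)
            = phi α (a j) + ∑ i ∈ Finset.univ.filter (fun i => X i < X j), phi α (a i) := Finset.sum_insert hjn
        rw [add_comm, ← hins]
        refine Finset.sum_le_sum_of_subset_of_nonneg ?_ (fun i _ _ => phi_nonneg α (a i) (ha i).le)
        intro i hi
        rw [Finset.mem_insert] at hi
        rcases hi with hi | hi
        · rw [hi]; simp [hjw]
        · exact hsub.1 hi
      have hsum' := mul_le_mul_of_nonneg_left hsum hm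
      rw [hstep, hterm]
      have e1 : m / 2 * α * X q = m / 2 * α * X j + m / 2 * (α * r) := by rw [hr]; ring
      rw [e1]
      linarith

/-- Lemma S. -/
theorem F_lower (m α : ℝ) (hm : 0 ≤ m) (hm1 : m ≤ 1) (X Y a : ι → ℝ) (hX : ∀ i, 0 ≤ X i)
    (ha : ∀ i, 0 < a i) (hline : ∀ i, 0 ≤ Y i + m * X i)
    (hsep : ∀ i j, i ≠ j → X i + a i ≤ X j ∨ X j + a j ≤ X i ∨ Y i + a i ≤ Y j ∨ Y j + a j ≤ Y i)
    (w : ℝ) (hw : 0 ≤ w) :
    m / 2 * α * w - m / 4 * α ^ 2 - m * ∑ i, phi α (a i) ≤ F m X Y w := by
  classical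
  have hnn : 0 ≤ m * ∑ i, phi α (a i) :=
    mul_nonneg hm (Finset.sum_nonneg (fun i _ => phi_nonneg α (a i) (ha i).le))
  by_cases hall : ∀ i, X i < w → 0 ≤ Y i
  · rw [F_base m X Y w hw hall]
    nlinarith [mul_nonneg hm (sq_nonneg (w - α / 2)), mul_nonneg hm (sq_nonneg α)]
  · obtain ⟨j, hjw, hjneg, hjmin, hjstrict⟩ := exists_deep X Y w hall
    have hih := F_ind m α hm hm1 X Y a hX ha hline hsep _ j le_rfl hjstrict
    have hstep := F_step m X Y w j hjw hjneg.le hjmin
    set r := w - X j with hr
    have hr0 : 0 < r := by rw [hr]; linarith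
    have ht0 : 0 ≤ Y j + m * X j := hline j
    have hterm : m * (w ^ 2 - X j ^ 2) / 2 + Y j * (w - X j) = r * (Y j + m * X j) + m * r ^ 2 / 2 := by
      rw [hr]; ring
    have hsum : ∑ i ∈ Finset.univ.filter (fun i => X i < X j), phi α (a i) + phi α (a j)
        ≤ ∑ i, phi α (a i) := by
      have hjn : j ∉ Finset.univ.filter (fun i => X i < X j) := by simp
      have hins : ∑ i ∈ insert j (Finset.univ.filter (fun i => X i < X j)), phi α (a i)
          = phi α (a j) + ∑ i ∈ Finset.univ.filter (fun i => X i < X j), phi α (a i) := Finset.sum_insert hjn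
      rw [add_comm, ← hins]
      exact Finset.sum_le_sum_of_subset_of_nonneg (Finset.subset_univ _)
        (fun i _ _ => phi_nonneg α (a i) (ha i).le)
    have hsum' := mul_le_mul_of_nonneg_left hsum hm
    have hphj := mul_nonneg hm (phi_nonneg α (a j) (ha j).le)
    rw [hstep, hterm]
    have e1 : m / 2 * α * w = m / 2 * α * X j + m / 2 * (α * r) := by rw [hr]; ring
    have e2 := mul_nonneg hm (sq_nonneg (r - α / 2))
    have e3 := mul_nonneg hr0.le ht0
    rw [e1]
    nlinarith

end Pool.H71.SQ
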