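import Pool.Agent.H71.SQ.Reduce

/-! The known lower bound constructions (Erdős-Soifer), axis-parallel. -/

namespace Pool.H71.SQ

open Finset MeasureTheory

lemma Sq_zero (x y s : ℝ) : Sq x y 0 s = Set.Icc x (x + s) ×ˢ Set.Icc y (y + s) := by
  ext p
  rw [Set.mem_prod, Set.mem_Icc, Set.mem_Icc]
  simp only [Sq, Real.cos_zero, Real.sin_zero, mul_one, mul_zero, sub_zero, add_zero, Set.mem_ofPred_eq, Set.mem_Icc]
  constructor
  · rintro ⟨a, ⟨ha1, ha2⟩, b, ⟨hb1, hb2⟩, rfl⟩
    simp only
    exact ⟨⟨by linarith, by linarith⟩, ⟨by linarith, by linarith⟩⟩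
  · rintro ⟨⟨h1, h2⟩, h3, h4⟩
    refine ⟨p.1 - x, ⟨by linarith, by linarith⟩, p.2 - y, ⟨by linarith, by linarith⟩, ?_⟩
    ext <;> simp

lemma from_axis {ι : Type} [Fintype ι] {r : ℕ} (hcard : Fintype.card ι = r) (X Y a : ι → ℝ)
    (pos : ∀ i, 0 < a i) (hx0 : ∀ i, 0 ≤ X i) (hx1 : ∀ i, X i + a i ≤ 1) (hy0 : ∀ i, 0 ≤ Y i)
    (hy1 : ∀ i, Y i + a i ≤ 1)
    (sep : ∀ i j, i ≠ j → X i + a i ≤ X j ∨ X j + a j ≤ X i ∨ Y i + a i ≤ Y j ∨ Y j + a j ≤ Y i) :
    ∃ x y θ s : Fin r → ℝ, Packing x y θ s ∧ (∀ i, θ i = 0) ∧ ∑ i, s i = ∑ i, a i := by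
  classical
  set e : ι ≃ Fin r := Fintype.equivFinOfCardEq hcard with he
  refine ⟨fun i => X (e.symm i), fun i => Y (e.symm i), fun _ => 0, fun i => a (e.symm i), ⟨?_, ?_, ?_⟩, fun _ => rfl, ?_⟩
  · exact fun i => pos _
  · intro i
    simp only [Sq_zero]
    apply Set.prod_mono
    · exact Set.Icc_subset_Icc (hx0 _) (hx1 _)
    · exact Set.Icc_subset_Icc (hy0 _) (hy1 _)
  · intro i j hij
    simp only [Sq_zero, interior_prod_eq, interior_Icc]
    rw [Set.disjoint_left]
    rintro p ⟨⟨h1, h2⟩, h3, h4⟩ ⟨⟨h5, h6⟩, h7, h8⟩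
    have hne : e.symm i ≠ e.symm j := fun h => hij (e.symm.injective h)
    rcases sep _ _ hne with h' | h' | h' | h' <;> linarith
  · exact Equiv.sum_comp e.symm a

/-- index type of the construction: cells outside a corner block, and fine cells -/
abbrev Idx (N b f : ℕ) (D : Finset (Fin f × Fin f)) : Type :=
  {p : Fin N × Fin N // ¬ ((p.1 : ℕ) < b ∧ (p.2 : ℕ) < b)} ⊕ {p : Fin f × Fin f // p ∈ D}

lemma card_block (N b : ℕ) (hb : b ≤ N) :
    Fintype.card {p : Fin N × Fin N // ¬ ((p.1 : ℕ) < b ∧ (p.2 : ℕ) < b)} = N ^ 2 - b ^ 2 := by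
  rw [Fintype.card_subtype_compl, Fintype.card_prod, Fintype.card_fin, pow_two, pow_two]
  congr 1
  have e : {p : Fin N × Fin N // (p.1 : ℕ) < b ∧ (p.2 : ℕ) < b} ≃ Fin b × Fin b :=
    { toFun := fun p => (⟨p.1.1, p.2.1⟩, ⟨p.1.2, p.2.2⟩)
      invFun := fun q => ⟨(⟨q.1, lt_of_lt_of_le q.1.2 hb⟩, ⟨q.2, lt_of_lt_of_le q.2.2 hb⟩), q.1.2, q.2.2⟩
      left_inv := fun p => by ext <;> simp
      right_inv := fun q => by ext <;> simp }
  rw [Fintype.card_congr e, Fintype.card_prod, Fintype.card_fin]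

lemma cell_sep (h : ℝ) (hh : 0 < h) (i j : ℕ) (hij : i ≠ j) : i * h + h ≤ j * h ∨ j * h + h ≤ i * h := by
  rcases Nat.lt_or_gt_of_ne hij with h' | h'
  · left
    have : (i : ℝ) + 1 ≤ j := by exact_mod_cast h'
    nlinarith
  · right
    have : (j : ℝ) + 1 ≤ i := by exact_mod_cast h'
    nlinarith

lemma construction (r N b f : ℕ) (D : Finset (Fin f × Fin f)) (hN : 1 ≤ N) (hb1 : 1 ≤ b) (hb : b ≤ N)
    (hr : N ^ 2 - b ^ 2 + D.card = r) :
    ∃ x y θ s : Fin r → ℝ, Packing x y θ s ∧ (∀ i, θ i = 0) ∧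
      ∑ i, s i = ((N : ℝ) ^ 2 - (b : ℝ) ^ 2) * (1 / N) + D.card * (b / (N * f)) := by
  classical
  have hN0 : (0 : ℝ) < N := by exact_mod_cast hN
  have hb0 : (0 : ℝ) < b := by exact_mod_cast hb1
  have hbN : (b : ℝ) ≤ N := by exact_mod_cast hb
  have hcard : Fintype.card (Idx N b f D) = r := by
    rw [Fintype.card_sum, card_block N b hb, Fintype.card_coe]; exact hr
  set g : ℝ := 1 / N with hg
  set h : ℝ := b / (N * f) with hh
  have hg0 : 0 < g := by positivity
  have hf : ∀ p : {p : Fin f × Fin f // p ∈ D}, (0 : ℝ) < f := by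
    intro p
    have := p.1.1.2
    exact_mod_cast (by omega : 0 < f)
  have hh0 : ∀ p : {p : Fin f × Fin f // p ∈ D}, 0 < h := by
    intro p
    have := hf p
    positivity
  have hgN : N * g = 1 := by rw [hg]; field_simp
  have hhf : ∀ p : {p : Fin f × Fin f // p ∈ D}, f * h = b * g := by
    intro p
    have := hf p
    rw [hh, hg]; field_simp
  -- upper bounds of fine cells
  have hfine : ∀ (p : {p : Fin f × Fin f // p ∈ D}) (i : Fin f), (i : ℝ) * h + h ≤ b * g := by
    intro p i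
    rw [← hhf p]
    have : (i : ℝ) + 1 ≤ f := by exact_mod_cast i.2
    nlinarith [hh0 p]
  have hcoarse : ∀ i : Fin N, (i : ℝ) * g + g ≤ 1 := by
    intro i
    rw [← hgN]
    have : (i : ℝ) + 1 ≤ N := by exact_mod_cast i.2
    nlinarith
  have hbg1 : b * g ≤ 1 := by rw [← hgN]; exact mul_le_mul_of_nonneg_right hbN hg0.le
  obtain ⟨x, y, θ, s, hP, hθ, hs⟩ := from_axis (ι := Idx N b f D) hcard
    (Sum.elim (fun p => (p.1.1 : ℕ) * g) (fun p => (p.1.1 : ℕ) * h))
    (Sum.elim (fun p => (p.1.2 : ℕ) * g) (fun p => (p.1.2 : ℕ) * h))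
    (Sum.elim (fun _ => g) (fun _ => h))
    (by
      rintro (p | p)
      · exact hg0
      · exact hh0 p)
    (by
      rintro (p | p)
      · exact mul_nonneg (Nat.cast_nonneg _) hg0.le
      · exact mul_nonneg (Nat.cast_nonneg _) (hh0 p).le)
    (by
      rintro (p | p)
      · exact hcoarse _
      · exact (hfine p _).trans hbg1)
    (by
      rintro (p | p)
      · exact mul_nonneg (Nat.cast_nonneg _) hg0.le
      · exact mul_nonneg (Nat.cast_nonneg _) (hh0 p).le)
    (by
      rintro (p | p)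
      · exact hcoarse _
      · exact (hfine p _).trans hbg1)
    (by
      have hmix : ∀ (p : {p : Fin N × Fin N // ¬ ((p.1 : ℕ) < b ∧ (p.2 : ℕ) < b)}) (q : {p : Fin f × Fin f // p ∈ D}),
          ((q.1.1 : ℕ) : ℝ) * h + h ≤ (p.1.1 : ℕ) * g ∨ ((q.1.2 : ℕ) : ℝ) * h + h ≤ (p.1.2 : ℕ) * g := by
        intro p q
        by_cases h1 : (p.1.1 : ℕ) < b
        · right
          have h2 : b ≤ (p.1.2 : ℕ) := by
            by_contra hcon
            exact p.2 ⟨h1, by omega⟩
          have h3 : (b : ℝ) ≤ (p.1.2 : ℕ) := by exact_mod_cast h2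
          exact (hfine q _).trans (mul_le_mul_of_nonneg_right h3 hg0.le)
        · left
          have h3 : (b : ℝ) ≤ (p.1.1 : ℕ) := by exact_mod_cast not_lt.1 h1
          exact (hfine q _).trans (mul_le_mul_of_nonneg_right h3 hg0.le)
      rintro (p | p) (q | q) hpq
      · simp only [Sum.elim_inl]
        by_cases h1 : (p.1.1 : ℕ) = q.1.1
        · have h2 : (p.1.2 : ℕ) ≠ q.1.2 := by
            intro h2
            apply hpq
            congr 1
            ext
            · exact h1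
            · exact h2
          rcases cell_sep g hg0 _ _ h2 with h' | h'
          · right; right; left; exact h'
          · right; right; right; exact h'
        · rcases cell_sep g hg0 _ _ h1 with h' | h'
          · left; exact h'
          · right; left; exact h'
      · simp only [Sum.elim_inl, Sum.elim_inr]
        rcases hmix p q with h' | h'
        · right; left; exact h'
        · right; right; right; exact h'
      · simp only [Sum.elim_inl, Sum.elim_inr]
        rcases hmix q p with h' | h'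
        · left; exact h'
        · right; right; left; exact h'
      · simp only [Sum.elim_inr]
        by_cases h1 : (p.1.1 : ℕ) = q.1.1
        · have h2 : (p.1.2 : ℕ) ≠ q.1.2 := by
            intro h2
            apply hpq
            congr 1
            ext
            · exact h1
            · exact h2
          rcases cell_sep h (hh0 p) _ _ h2 with h' | h'
          · right; right; left; exact h'
          · right; right; right; exact h'
        · rcases cell_sep h (hh0 p) _ _ h1 with h' | h'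
          · left; exact h'
          · right; left; exact h')
  refine ⟨x, y, θ, s, hP, hθ, ?_⟩
  rw [hs, Fintype.sum_sum_type]
  simp only [Sum.elim_inl, Sum.elim_inr, Finset.sum_const, Finset.card_univ, nsmul_eq_mul]
  rw [card_block N b hb, Fintype.card_coe]
  have h3 : ((N ^ 2 - b ^ 2 : ℕ) : ℝ) = (N : ℝ) ^ 2 - (b : ℝ) ^ 2 := by
    rw [Nat.cast_sub (Nat.pow_le_pow_left hb 2)]; push_cast; ring
  rw [h3]

/-- the conjectured value is attained by axis-parallel squares -/
theorem lower (r k t : ℕ) (v : ℝ) (hk : 1 ≤ k)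
    (hv : (t < k ∧ r = k ^ 2 + 2 * t + 1 ∧ v = (k : ℝ) + (t : ℝ) / (k : ℝ)) ∨
       (t ≤ k ∧ r = k ^ 2 + 2 * t ∧ v = (k : ℝ) + (t : ℝ) / ((k : ℝ) + 1))) :
    ∃ x y θ s : Fin r → ℝ, Packing x y θ s ∧ (∀ i, θ i = 0) ∧ ∑ i, s i = v := by
  classical
  have hk0 : (0 : ℝ) < k := by exact_mod_cast hk
  rcases hv with ⟨ht, hr, hv⟩ | ⟨ht, hr, hv⟩
  · rcases Nat.eq_zero_or_pos t with h0 | h0
    · -- two half squares in one cell
      subst h0
      obtain ⟨x, y, θ, s, hP, hθ, hs⟩ := construction r k 1 2 {(0, 0), (1, 1)} hk le_rfl hk (by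
        rw [Finset.card_pair (by simp)]
        have : 1 ≤ k ^ 2 := Nat.one_le_pow _ _ hk
        omega)
      refine ⟨x, y, θ, s, hP, hθ, ?_⟩
      rw [hs, hv, Finset.card_pair (by simp)]
      push_cast
      field_simp
      ring
    · obtain ⟨x, y, θ, s, hP, hθ, hs⟩ := construction r k t (t + 1) Finset.univ hk h0 ht.le (by
        rw [Finset.card_univ, Fintype.card_prod, Fintype.card_fin]
        have h1 : t ^ 2 ≤ k ^ 2 := Nat.pow_le_pow_left ht.le 2
        have h2 : (t + 1) * (t + 1) = t ^ 2 + 2 * t + 1 := by ring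
        omega)
      refine ⟨x, y, θ, s, hP, hθ, ?_⟩
      rw [hs, hv, Finset.card_univ, Fintype.card_prod, Fintype.card_fin]
      push_cast
      field_simp
      ring
  · obtain ⟨d, hd⟩ : ∃ d, k = t + d := ⟨k - t, by omega⟩
    obtain ⟨x, y, θ, s, hP, hθ, hs⟩ := construction r (k + 1) (d + 1) d Finset.univ (by omega) (by omega)
      (by omega) (by
        rw [Finset.card_univ, Fintype.card_prod, Fintype.card_fin, hr, hd]
        have h1 : (t + d + 1) ^ 2 = (t + d) ^ 2 + 2 * t + (2 * d + 1) := by ring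
        have h2 : (d + 1) ^ 2 = d * d + (2 * d + 1) := by ring
        have h3 : d * d ≤ (t + d) ^ 2 := by nlinarith
        omega)
    refine ⟨x, y, θ, s, hP, hθ, ?_⟩
    rw [hs, hv, Finset.card_univ, Fintype.card_prod, Fintype.card_fin]
    have hd' : (k : ℝ) = t + d := by exact_mod_cast hd
    rcases Nat.eq_zero_or_pos d with h0 | h0
    · subst h0
      push_cast at hd' ⊢
      rw [hd']
      have : (0 : ℝ) < t := by
        have : k = t := by omega
        rw [← this]; exact hk0
      field_simp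
      ring
    · have hd0 : (0 : ℝ) < d := by exact_mod_cast h0
      push_cast
      rw [hd']
      field_simp
      ring

end Pool.H71.SQ
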