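import Pool.Agent.H71.SQ.Basic

/-! Part A: the case `k s ≤ 1`. -/

namespace Pool.H71.SQ

open Finset MeasureTheory

lemma fract_int (z : ℝ) : IntervalIntegrable (fun u : ℝ => Int.fract (z - u)) volume 0 1 := by
  rw [intervalIntegrable_iff_integrableOn_Ioc_of_le zero_le_one]
  refine Measure.integrableOn_of_bounded (M := 1) (by simp) ?_ ?_
  · exact (measurable_fract.comp (measurable_const.sub measurable_id)).aestronglyMeasurable
  · refine Filter.Eventually.of_forall (fun u => ?_)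
    rw [Real.norm_eq_abs, abs_of_nonneg (Int.fract_nonneg _)]
    exact (Int.fract_lt_one _).le

lemma integral_fract (z : ℝ) :
    ∫ u in (0 : ℝ)..1, Int.fract (z - u) = ∫ u in (0 : ℝ)..1, Int.fract u := by
  rw [intervalIntegral.integral_comp_sub_left (fun x => Int.fract x) z]
  have h := (Int.fract_periodic ℝ).intervalIntegral_add_eq (z - 1) 0
  simp only [sub_add_cancel, zero_add] at h
  rw [sub_zero]; exact h

lemma P_integral (z a : ℝ) (ha : 0 ≤ a) :
    IntervalIntegrable (fun u => (P z a u : ℝ)) volume 0 1 ∧ ∫ u in (0 : ℝ)..1, (P z a u : ℝ) = a := by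
  have e : (fun u => (P z a u : ℝ)) = fun u => (a - Int.fract (z + a - u)) + Int.fract (z - u) := by
    funext u
    rw [P_cast z a u ha, Int.fract, Int.fract]; ring
  rw [e]
  have i1 : IntervalIntegrable (fun u : ℝ => a - Int.fract (z + a - u)) volume 0 1 :=
    intervalIntegrable_const.sub (fract_int (z + a))
  refine ⟨i1.add (fract_int z), ?_⟩
  rw [intervalIntegral.integral_add i1 (fract_int z),
    intervalIntegral.integral_sub intervalIntegrable_const (fract_int (z + a)),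
    integral_fract, integral_fract, intervalIntegral.integral_const]
  simp

/-- there is a shift of the lines with many hits -/
lemma exists_shift {ι : Type} [Fintype ι] (X a : ι → ℝ) (ha : ∀ i, 0 < a i) (T : ℕ)
    (hT : (T : ℝ) < ∑ i, a i) : ∃ u : ℝ, T + 1 ≤ ∑ i, P (X i) (a i) u := by
  by_contra hcon
  push Not at hcon
  have h1 : ∀ u : ℝ, ∑ i, (P (X i) (a i) u : ℝ) ≤ T := by
    intro u
    have := hcon u
    have h2 : ∑ i, P (X i) (a i) u ≤ T := by omega
    exact_mod_cast h2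
  have h2 : ∫ u in (0 : ℝ)..1, ∑ i, (P (X i) (a i) u : ℝ) = ∑ i, a i := by
    rw [intervalIntegral.integral_finsetSum (fun i _ => (P_integral (X i) (a i) (ha i).le).1)]
    exact Finset.sum_congr rfl (fun i _ => (P_integral (X i) (a i) (ha i).le).2)
  have h3 : ∫ u in (0 : ℝ)..1, ∑ i, (P (X i) (a i) u : ℝ) ≤ ∫ u in (0 : ℝ)..1, (T : ℝ) := by
    refine intervalIntegral.integral_mono zero_le_one ?_ intervalIntegrable_const (fun u => h1 u)
    have := IntervalIntegrable.sum (μ := volume) (a := 0) (b := 1) Finset.univ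
      (f := fun i u => (P (X i) (a i) u : ℝ)) (fun i _ => (P_integral (X i) (a i) (ha i).le).1)
    have e : (fun u : ℝ => ∑ i, (P (X i) (a i) u : ℝ)) = ∑ i, fun u => (P (X i) (a i) u : ℝ) := by
      funext u; rw [Finset.sum_apply]
    rw [e]; exact this
  rw [h2] at h3
  simp at h3
  linarith

variable {ι : Type} {k : ℕ} {c s : ℝ} {X Y a : ι → ℝ}

lemma FP.X_nonneg (h : FP k c s X Y a) (hcs : c ^ 2 + s ^ 2 = 1) (hc : 0 ≤ c) (hs : 0 ≤ s) (i : ι) :
    0 ≤ X i := by
  have h1 := mul_nonneg hc (h.h1 i)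
  have h3 := mul_nonneg hs (h.h3 i)
  have ha := h.pos i
  have e : c * (c * X i - s * (Y i + a i)) + s * (s * X i + c * Y i) = (c ^ 2 + s ^ 2) * X i - c * s * a i := by ring
  rw [hcs] at e
  have : 0 ≤ c * s * a i := by positivity
  linarith

lemma FP.X_le (h : FP k c s X Y a) (hcs : c ^ 2 + s ^ 2 = 1) (hc : 0 ≤ c) (hs : 0 ≤ s) (i : ι) :
    X i + a i ≤ k * (c + s) := by
  have h2 := mul_le_mul_of_nonneg_left (h.h2 i) hc
  have h4 := mul_le_mul_of_nonneg_left (h.h4 i) hs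
  have ha := h.pos i
  have e : c * (c * (X i + a i) - s * Y i) + s * (s * (X i + a i) + c * (Y i + a i))
    = (c ^ 2 + s ^ 2) * (X i + a i) + c * s * a i := by ring
  rw [hcs] at e
  have : 0 ≤ c * s * a i := by positivity
  linarith

/-- the lines -/
noncomputable def M (k : ℕ) (c s u : ℝ) : Finset ℤ := Finset.Ioc ⌊0 - u⌋ ⌊0 + k * (c + s) - u⌋

lemma FP.sub_M (h : FP k c s X Y a) (hcs : c ^ 2 + s ^ 2 = 1) (hc : 0 ≤ c) (hs : 0 ≤ s) (i : ι) (u : ℝ)
    (m : ℤ) (hm : m ∈ Finset.Ioc ⌊X i - u⌋ ⌊X i + a i - u⌋) : m ∈ M k c s u := by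
  rw [mem_P] at hm
  unfold M
  rw [mem_P]
  have h1 := h.X_nonneg hcs hc hs i
  have h2 := h.X_le hcs hc hs i
  constructor
  · linarith
  · linarith

lemma card_M_le (k : ℕ) (c s u : ℝ) (L : ℕ) (hL : k * (c + s) ≤ L) : (M k c s u).card ≤ L := by
  have h : ⌊0 + k * (c + s) - u⌋ ≤ (⌊0 - u⌋ + (L : ℤ) : ℤ) := by
    rw [← Int.floor_add_natCast]
    exact Int.floor_le_floor (by linarith)
  unfold M
  rw [Int.card_Ioc]
  omega

/-- the total side length of the squares hit by the line `x`, bounded by the chord -/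
lemma FP.chord [Fintype ι] (h : FP k c s X Y a) (hc : 0 < c) (hs : 0 ≤ s) (x lo hi : ℝ) (hlh : lo ≤ hi)
    (hlo : ∀ i, 0 ≤ s * x + c * Y i → c * x - s * Y i ≤ k → lo ≤ Y i)
    (hhi : ∀ i, 0 ≤ c * x - s * (Y i + a i) → s * x + c * (Y i + a i) ≤ k → Y i + a i ≤ hi) :
    ∑ i ∈ Finset.univ.filter (fun i => X i < x ∧ x ≤ X i + a i), a i ≤ hi - lo := by
  refine sum_len_le _ Y a lo hi hlh (fun i _ => h.pos i) ?_ ?_ ?_
  · intro i hi'
    rw [Finset.mem_filter] at hi'
    obtain ⟨-, h1, h2⟩ := hi'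
    apply hlo
    · have := h.h3 i
      have := mul_nonneg hs (sub_nonneg.2 h1.le)
      linarith
    · have := h.h2 i
      have := mul_nonneg hc.le (sub_nonneg.2 h2)
      linarith
  · intro i hi'
    rw [Finset.mem_filter] at hi'
    obtain ⟨-, h1, h2⟩ := hi'
    apply hhi
    · have := h.h1 i
      have := mul_nonneg hc.le (sub_nonneg.2 h1.le)
      linarith
    · have := h.h4 i
      have := mul_nonneg hs (sub_nonneg.2 h2)
      linarith
  · intro i hi' j hj' hij
    rw [Finset.mem_filter] at hi' hj'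
    rcases h.sep i j hij with h' | h' | h' | h'
    · exfalso; linarith [hi'.2.2, hj'.2.1]
    · exfalso; linarith [hi'.2.1, hj'.2.2]
    · exact Or.inl h'
    · exact Or.inr h'

lemma FP.sum_P_mul [Fintype ι] (h : FP k c s X Y a) (hcs : c ^ 2 + s ^ 2 = 1) (hc : 0 ≤ c) (hs : 0 ≤ s) (u : ℝ) :
    ∑ i, (P (X i) (a i) u : ℝ) * a i
      = ∑ m ∈ M k c s u, ∑ i ∈ Finset.univ.filter (fun i => X i < m + u ∧ m + u ≤ X i + a i), a i := by
  have e : ∀ i, (P (X i) (a i) u : ℝ) * a i = ∑ m ∈ Finset.Ioc ⌊X i - u⌋ ⌊X i + a i - u⌋, a i := by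
    intro i
    rw [Finset.sum_const, nsmul_eq_mul]; rfl
  simp_rw [e]
  refine Finset.sum_comm' ?_
  intro i m
  simp only [Finset.mem_univ, true_and, Finset.mem_filter]
  constructor
  · intro hm
    exact ⟨(mem_P _ _ _ _).1 hm, h.sub_M hcs hc hs i u m hm⟩
  · rintro ⟨hm, -⟩
    exact (mem_P _ _ _ _).2 hm

lemma FP.full_lines [Fintype ι] (h : FP k c s X Y a) (hk : 1 ≤ k) (hcs : c ^ 2 + s ^ 2 = 1) (hc : 0 < c) (hs : 0 < s)
    (hks : k * s ≤ 1) (u : ℝ) (hM : (M k c s u).card = k + 1) :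
    ∑ i, (P (X i) (a i) u : ℝ) * a i ≤ k ^ 2 := by
  have hc1 : c < 1 := by nlinarith
  have hk' : (1 : ℝ) ≤ k := by exact_mod_cast hk
  set m0 : ℤ := ⌊0 - u⌋ + 1 with hm0
  have hMIoc : M k c s u = Finset.Ioc (m0 - 1) (m0 + k) := by
    have h1 : (M k c s u).card = (⌊0 + k * (c + s) - u⌋ - ⌊0 - u⌋).toNat := by
      unfold M; rw [Int.card_Ioc]
    rw [hM] at h1
    unfold M
    have h2 : ⌊0 + k * (c + s) - u⌋ = m0 + k := by omega
    rw [h2]
    congr 1
    omega
  have hmem : ∀ m ∈ M k c s u, 0 ≤ (m : ℝ) + u ∧ (m : ℝ) + u ≤ k * (c + s) := by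
    intro m hm
    unfold M at hm
    rw [mem_P] at hm
    exact ⟨hm.1.le, by linarith [hm.2]⟩
  have hsc : 0 < s * c := mul_pos hs hc
  rw [h.sum_P_mul hcs hc.le hs.le u]
  set B : ℤ → ℝ := fun m => k / c + (if m = m0 then ((m0 : ℝ) + u) / (s * c) - k / c else 0)
    + (if m = m0 + k then (k * (c + s) - ((m0 : ℝ) + k + u)) / (s * c) - k / c else 0) with hB
  have hm0M : m0 ∈ M k c s u := by rw [hMIoc, Finset.mem_Ioc]; omega
  have hmkM : m0 + k ∈ M k c s u := by rw [hMIoc, Finset.mem_Ioc]; omega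
  have hle : ∀ m ∈ M k c s u,
      ∑ i ∈ Finset.univ.filter (fun i => X i < m + u ∧ m + u ≤ X i + a i), a i ≤ B m := by
    intro m hm
    obtain ⟨hx0, hx1⟩ := hmem m hm
    by_cases e1 : m = m0
    · have e2 : m ≠ m0 + k := by omega
      have hBm : B m = ((m : ℝ) + u) / (s * c) := by
        simp only [hB, if_neg e2, if_pos e1]; rw [e1]; ring
      rw [hBm]
      refine le_trans (h.chord hc hs.le ((m : ℝ) + u) (-(s * ((m : ℝ) + u)) / c) (c * ((m : ℝ) + u) / s) ?_ ?_ ?_) ?_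
      · have p1 : 0 ≤ s * ((m : ℝ) + u) := mul_nonneg hs.le hx0
        have p2 : 0 ≤ c * ((m : ℝ) + u) := mul_nonneg hc.le hx0
        have p3 : -(s * ((m : ℝ) + u)) / c ≤ 0 := div_nonpos_of_nonpos_of_nonneg (by linarith) hc.le
        have p4 : 0 ≤ c * ((m : ℝ) + u) / s := div_nonneg p2 hs.le
        linarith
      · intro i h1 _
        rw [div_le_iff₀ hc]; linarith
      · intro i h1 _
        rw [le_div_iff₀ hs]; linarith
      · have : c * ((m : ℝ) + u) / s - -(s * ((m : ℝ) + u)) / c = (c ^ 2 + s ^ 2) * ((m : ℝ) + u) / (s * c) := by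
          field_simp; ring
        rw [this, hcs, one_mul]
    · by_cases e2 : m = m0 + k
      · have hBm : B m = (k * (c + s) - ((m : ℝ) + u)) / (s * c) := by
          simp only [hB, if_pos e2, if_neg e1]; rw [e2]; push_cast; ring
        rw [hBm]
        refine le_trans (h.chord hc hs.le ((m : ℝ) + u) ((c * ((m : ℝ) + u) - k) / s) ((k - s * ((m : ℝ) + u)) / c) ?_ ?_ ?_) ?_
        · rw [div_le_div_iff₀ hs hc]
          have : (k - s * ((m : ℝ) + u)) * s - (c * ((m : ℝ) + u) - k) * c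
              = k * (c + s) - (c ^ 2 + s ^ 2) * ((m : ℝ) + u) := by ring
          rw [hcs] at this
          linarith
        · intro i _ h2
          rw [div_le_iff₀ hs]; linarith
        · intro i _ h2
          rw [le_div_iff₀ hc]; linarith
        · have : (k - s * ((m : ℝ) + u)) / c - (c * ((m : ℝ) + u) - k) / s
              = (k * (c + s) - (c ^ 2 + s ^ 2) * ((m : ℝ) + u)) / (s * c) := by
            field_simp; ring
          rw [this, hcs, one_mul]
      · have hBm : B m = k / c := by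
          simp only [hB, if_neg e1, if_neg e2]; ring
        rw [hBm]
        refine le_trans (h.chord hc hs.le ((m : ℝ) + u) (-(s * ((m : ℝ) + u)) / c) ((k - s * ((m : ℝ) + u)) / c) ?_ ?_ ?_) ?_
        · rw [div_le_div_iff_of_pos_right hc]; linarith
        · intro i h1 _
          rw [div_le_iff₀ hc]; linarith
        · intro i _ h2
          rw [le_div_iff₀ hc]; linarith
        · apply le_of_eq; field_simp; ring
  refine le_trans (Finset.sum_le_sum hle) ?_
  have hsum : ∑ m ∈ M k c s u, B m = ((k : ℝ) + 1) * (k / c) + (((m0 : ℝ) + u) / (s * c) - k / c)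
      + ((k * (c + s) - ((m0 : ℝ) + k + u)) / (s * c) - k / c) := by
    simp only [hB]
    rw [Finset.sum_add_distrib, Finset.sum_add_distrib, Finset.sum_const, Finset.sum_ite_eq', Finset.sum_ite_eq',
      if_pos hm0M, if_pos hmkM, hM, nsmul_eq_mul]
    push_cast; ring
  rw [hsum]
  have e3 : ((k : ℝ) + 1) * (k / c) + (((m0 : ℝ) + u) / (s * c) - k / c)
      + ((k * (c + s) - ((m0 : ℝ) + k + u)) / (s * c) - k / c)
      = ((k - 1) * k * s + k * (c + s) - k) / (s * c) := by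
    field_simp; ring
  rw [e3, div_le_iff₀ hsc]
  have : ((k : ℝ) - 1) * k * s + k * (c + s) - k - k ^ 2 * (s * c) = k * (1 - c) * (k * s - 1) := by ring
  have h4 : (k : ℝ) * (1 - c) * (k * s - 1) ≤ 0 :=
    mul_nonpos_of_nonneg_of_nonpos (mul_nonneg (by linarith) (by linarith)) (by linarith)
  linarith

lemma FP.grid [Fintype ι] (h : FP k c s X Y a) (hcs : c ^ 2 + s ^ 2 = 1) (hc : 0 ≤ c) (hs : 0 ≤ s)
    (u v : ℝ) (L L' : ℕ) (hM : (M k c s u).card ≤ L) (hM' : (M k c s v).card ≤ L') :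
    ∑ i, (P (X i) (a i) u : ℝ) * (P (k * c - Y i - a i) (a i) v : ℝ) ≤ L * L' := by
  classical
  have h' := h.rot hcs
  have e : ∀ i, (P (X i) (a i) u) * (P (k * c - Y i - a i) (a i) v)
      = ((Finset.Ioc ⌊X i - u⌋ ⌊X i + a i - u⌋) ×ˢ
        (Finset.Ioc ⌊(k * c - Y i - a i) - v⌋ ⌊(k * c - Y i - a i) + a i - v⌋)).card := by
    intro i
    rw [Finset.card_product]; rfl
  have h1 : ∑ i, (P (X i) (a i) u) * (P (k * c - Y i - a i) (a i) v) ≤ L * L' := by
    simp_rw [e]
    rw [← Finset.card_biUnion]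
    · refine le_trans (Finset.card_le_card (t := (M k c s u) ×ˢ (M k c s v)) ?_) ?_
      · intro p hp
        rw [Finset.mem_biUnion] at hp
        obtain ⟨i, -, hp⟩ := hp
        rw [Finset.mem_product] at hp ⊢
        exact ⟨h.sub_M hcs hc hs i u p.1 hp.1, h'.sub_M hcs hc hs i v p.2 hp.2⟩
      · rw [Finset.card_product]
        exact Nat.mul_le_mul hM hM'
    · intro i _ j _ hij
      rw [Function.onFun, Finset.disjoint_left]
      intro p hp hq
      rw [Finset.mem_product, mem_P, mem_P] at hp hq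
      rcases h.sep i j hij with h'' | h'' | h'' | h''
      · linarith [hp.1.2, hq.1.1]
      · linarith [hp.1.1, hq.1.2]
      · linarith [hp.2.1, hq.2.2]
      · linarith [hp.2.2, hq.2.1]
  exact_mod_cast h1

/-- Part A. -/
theorem FP.partA [Fintype ι] (h : FP k c s X Y a) (hk : 1 ≤ k) (hcs : c ^ 2 + s ^ 2 = 1) (hc : 0 < c) (hs : 0 ≤ s)
    (hks : k * s ≤ 1) (T : ℕ) (hT : 2 * T + 1 = Fintype.card ι + k ^ 2) : ∑ i, a i ≤ T := by
  by_contra hcon
  push Not at hcon
  have h' := h.rot hcs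
  obtain ⟨u, hu⟩ := exists_shift X a h.pos T hcon
  obtain ⟨v, hv⟩ := exists_shift (fun i => k * c - Y i - a i) a h.pos T hcon
  have hu' : (T : ℝ) + 1 ≤ ∑ i, (P (X i) (a i) u : ℝ) := by exact_mod_cast hu
  have hv' : (T : ℝ) + 1 ≤ ∑ i, (P (k * c - Y i - a i) (a i) v : ℝ) := by exact_mod_cast hv
  have hT' : 2 * (T : ℝ) + 1 = Fintype.card ι + (k : ℝ) ^ 2 := by exact_mod_cast hT
  have hc1 : c ≤ 1 := by nlinarith
  have hkc : (k : ℝ) * c ≤ k := by nlinarith [(Nat.cast_nonneg k : (0 : ℝ) ≤ k)]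
  have key : ∀ (X' Y' : ι → ℝ) (w : ℝ), FP k c s X' Y' a → (T : ℝ) + 1 ≤ ∑ i, (P (X' i) (a i) w : ℝ) →
      (M k c s w).card ≤ k := by
    intro X' Y' w hF hw
    by_contra hlt
    push Not at hlt
    have hle : (M k c s w).card ≤ k + 1 := card_M_le k c s w (k + 1) (by push_cast; nlinarith)
    have hs0 : 0 < s := by
      rcases hs.eq_or_lt with h0 | h0
      · exfalso
        have : (M k c s w).card ≤ k := card_M_le k c s w k (by rw [← h0]; linarith)
        omega
      · exact h0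
    have h3 := hF.full_lines hk hcs hc hs0 hks w (by omega)
    have h4 : 0 ≤ ∑ i, ((P (X' i) (a i) w : ℝ) - 1) * (a i - 1) :=
      Finset.sum_nonneg (fun i _ => P_mul_a _ _ _)
    have h5 : ∑ i, ((P (X' i) (a i) w : ℝ) - 1) * (a i - 1)
        = ∑ i, (P (X' i) (a i) w : ℝ) * a i - ∑ i, (P (X' i) (a i) w : ℝ) - ∑ i, a i + Fintype.card ι := by
      have : ∀ i, ((P (X' i) (a i) w : ℝ) - 1) * (a i - 1)
        = (P (X' i) (a i) w : ℝ) * a i - (P (X' i) (a i) w : ℝ) - a i + 1 := fun i => by ring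
      simp_rw [this]
      rw [Finset.sum_add_distrib, Finset.sum_sub_distrib, Finset.sum_sub_distrib]
      simp
    linarith
  have k1 := key X Y u h hu'
  have k2 := key _ _ v h' hv'
  have h6 := h.grid hcs hc.le hs u v k k k1 k2
  have h4 : 0 ≤ ∑ i, ((P (X i) (a i) u : ℝ) - 1) * ((P (k * c - Y i - a i) (a i) v : ℝ) - 1) :=
    Finset.sum_nonneg (fun i _ => P_mul_P _ _ _ _ _)
  have h5 : ∑ i, ((P (X i) (a i) u : ℝ) - 1) * ((P (k * c - Y i - a i) (a i) v : ℝ) - 1)
      = ∑ i, (P (X i) (a i) u : ℝ) * (P (k * c - Y i - a i) (a i) v : ℝ) - ∑ i, (P (X i) (a i) u : ℝ)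
        - ∑ i, (P (k * c - Y i - a i) (a i) v : ℝ) + Fintype.card ι := by
    have : ∀ i, ((P (X i) (a i) u : ℝ) - 1) * ((P (k * c - Y i - a i) (a i) v : ℝ) - 1)
      = (P (X i) (a i) u : ℝ) * (P (k * c - Y i - a i) (a i) v : ℝ) - (P (X i) (a i) u : ℝ)
        - (P (k * c - Y i - a i) (a i) v : ℝ) + 1 := fun i => by ring
    simp_rw [this]
    rw [Finset.sum_add_distrib, Finset.sum_sub_distrib, Finset.sum_sub_distrib]
    simp
  nlinarith

end Pool.H71.SQ
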