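import Pool.Agent.H71.SQ.PartA
import Pool.Agent.H71.SQ.LemmaS

/-! Part B: the case `k s ≥ 1`. -/

namespace Pool.H71.SQ

open Finset MeasureTheory

/-- the rotated square -/
def K (k : ℕ) (c s : ℝ) : Set (ℝ × ℝ) :=
  {p | 0 ≤ c * p.1 - s * p.2 ∧ c * p.1 - s * p.2 ≤ k ∧ 0 ≤ s * p.1 + c * p.2 ∧ s * p.1 + c * p.2 ≤ k}

lemma volume_K (k : ℕ) (c s : ℝ) (hcs : c ^ 2 + s ^ 2 = 1) : volume (K k c s) = ENNReal.ofReal ((k : ℝ) ^ 2) := by
  set L : ℝ × ℝ →ₗ[ℝ] ℝ × ℝ := Matrix.toLin (Module.Basis.finTwoProd ℝ) (Module.Basis.finTwoProd ℝ) !![c, -s; s, c] with hL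
  have hLapp : ∀ p : ℝ × ℝ, L p = (c * p.1 - s * p.2, s * p.1 + c * p.2) := by
    intro p
    rw [hL, Matrix.toLin_finTwoProd_apply]
    ext
    · simp; ring
    · simp
  have hdet : LinearMap.det L = 1 := by
    rw [hL, LinearMap.det_toLin, Matrix.det_fin_two_of]
    nlinarith
  have hpre : K k c s = L ⁻¹' (Set.Icc (0 : ℝ) k ×ˢ Set.Icc (0 : ℝ) k) := by
    ext p
    rw [Set.mem_preimage, hLapp, Set.mem_prod, Set.mem_Icc, Set.mem_Icc]
    simp only [K, Set.mem_ofPred_eq]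
    tauto
  rw [hpre, Measure.addHaar_preimage_linearMap volume (by rw [hdet]; exact one_ne_zero), hdet,
    Measure.volume_eq_prod, Measure.prod_prod, Real.volume_Icc, sub_zero, ← ENNReal.ofReal_mul (by positivity)]
  simp [pow_two]

/-- the quarter turn of the plane -/
noncomputable def g (k : ℕ) (c s : ℝ) (p : ℝ × ℝ) : ℝ × ℝ := (k * c - p.2, p.1 - k * s)

lemma g_mp (k : ℕ) (c s : ℝ) : MeasurePreserving (g k c s) volume volume := by
  have h1 : MeasurePreserving (fun y : ℝ => k * c - y) volume volume :=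
    Measure.measurePreserving_sub_left volume (k * c)
  have h2 : MeasurePreserving (fun x : ℝ => x - k * s) volume volume :=
    measurePreserving_sub_right volume (k * s)
  have h3 := (h1.prod h2).comp (Measure.measurePreserving_swap (μ := (volume : Measure ℝ)) (ν := (volume : Measure ℝ)))
  exact h3

lemma g_K (k : ℕ) (c s : ℝ) (hcs : c ^ 2 + s ^ 2 = 1) (p : ℝ × ℝ) (h : g k c s p ∈ K k c s) : p ∈ K k c s := by
  simp only [K, g, Set.mem_ofPred_eq] at h ⊢
  obtain ⟨h1, h2, h3, h4⟩ := h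
  have e1 : c * (k * c - p.2) - s * (p.1 - k * s) = k * (c ^ 2 + s ^ 2) - (s * p.1 + c * p.2) := by ring
  have e2 : s * (k * c - p.2) + c * (p.1 - k * s) = c * p.1 - s * p.2 := by ring
  rw [e1, hcs] at h1 h2
  rw [e2] at h3 h4
  exact ⟨h3, h4, by linarith, by linarith⟩

variable {ι : Type} [Fintype ι]

/-- the region under the squares -/
noncomputable def R0 (m w : ℝ) (X Y : ι → ℝ) : Set (ℝ × ℝ) :=
  regionBetween (fun x => -(m * x)) (fun x => -E X Y x) (Set.Ioc 0 w)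

lemma R0_meas (m w : ℝ) (X Y : ι → ℝ) : MeasurableSet (R0 m w X Y) :=
  measurableSet_regionBetween (by fun_prop) (E_mono X Y).measurable.neg measurableSet_Ioc

lemma R0_vol (m w : ℝ) (hm : 0 ≤ m) (hw : 0 ≤ w) (X Y : ι → ℝ) (hline : ∀ i, 0 ≤ Y i + m * X i) :
    volume (R0 m w X Y) = ENNReal.ofReal (F m X Y w) := by
  unfold R0
  rw [Measure.volume_eq_prod, volume_regionBetween_eq_integral]
  · unfold F
    rw [intervalIntegral.integral_of_le hw]
    congr 2
    funext x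
    simp only [Pi.sub_apply]; ring
  · exact ((by fun_prop : Continuous (fun x : ℝ => -(m * x))).integrableOn_Icc).mono_set Set.Ioc_subset_Icc_self
  · exact ((intervalIntegrable_iff_integrableOn_Ioc_of_le hw).1 (E_intervalIntegrable X Y 0 w)).neg
  · exact measurableSet_Ioc
  · intro x hx
    have : E X Y x ≤ m * x := by
      refine E_le X Y x _ (mul_nonneg hm hx.1.le) (fun i hi => ?_)
      have h1 := hline i
      have h2 := mul_le_mul_of_nonneg_left hi.le hm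
      linarith
    linarith

/-- the triangle containing the region -/
def Tri (m w : ℝ) : Set (ℝ × ℝ) := {p | 0 < p.1 ∧ p.1 ≤ w ∧ -(m * p.1) < p.2 ∧ p.2 < 0}

lemma R0_sub (m w : ℝ) (X Y : ι → ℝ) : R0 m w X Y ⊆ Tri m w := by
  rintro p ⟨⟨h1, h2⟩, h3, h4⟩
  have := E_nonneg X Y p.1
  exact ⟨h1, h2, h3, by linarith⟩

/-- open square -/
def Q (X Y a : ℝ) : Set (ℝ × ℝ) := Set.Ioo X (X + a) ×ˢ Set.Ioo Y (Y + a)

lemma R0_disj (m w : ℝ) (X Y a : ι → ℝ) (i : ι) (p : ℝ × ℝ) (hp : p ∈ Q (X i) (Y i) (a i)) : p ∉ R0 m w X Y := by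
  rintro ⟨-, h3, h4⟩
  have := le_E X Y p.1 i hp.1.1
  linarith [hp.2.1]

lemma g_Q (k : ℕ) (c s X Y a : ℝ) (p : ℝ × ℝ) (hp : p ∈ Q X Y a) : g k c s p ∈ Q (k * c - Y - a) (X - k * s) a := by
  obtain ⟨⟨h1, h2⟩, h3, h4⟩ := hp
  refine ⟨⟨?_, ?_⟩, ?_, ?_⟩ <;> simp only [g] <;> linarith

variable {k : ℕ} {c s : ℝ} {X Y a : ι → ℝ}

lemma Tri_K (k : ℕ) (c s : ℝ) (hcs : c ^ 2 + s ^ 2 = 1) (hc : 0 < c) (hs : 0 ≤ s) :
    Tri (s / c) (k * c) ⊆ K k c s := by
  rintro p ⟨h1, h2, h3, h4⟩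
  have h3' : -(s * p.1) < c * p.2 := by
    have := mul_lt_mul_of_pos_left h3 hc
    have e : c * -(s / c * p.1) = -(s * p.1) := by field_simp
    linarith
  have hx := h1.le
  have hc1 : c ≤ 1 := by nlinarith
  have hk0 : (0 : ℝ) ≤ k := Nat.cast_nonneg k
  refine ⟨?_, ?_, ?_, ?_⟩
  · have := mul_nonneg hc.le hx
    have := mul_nonneg hs (neg_nonneg.2 h4.le)
    linarith
  · -- c x - s y ≤ x / c ≤ k
    have h5 : c * (c * p.1 - s * p.2) ≤ c * k := by
      have h6 := mul_le_mul_of_nonneg_left h3'.le hs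
      have e : c ^ 2 * p.1 + s ^ 2 * p.1 = p.1 := by rw [← add_mul, hcs, one_mul]
      linarith
    exact le_of_mul_le_mul_left h5 hc
  · linarith
  · have h6 := mul_le_mul_of_nonneg_left h2 hs
    have h7 : c * p.2 ≤ 0 := mul_nonpos_of_nonneg_of_nonpos hc.le h4.le
    have h8 : s * (k * c) ≤ k := by nlinarith [mul_nonneg hs hc.le, sq_nonneg (s - c)]
    linarith

lemma FP.line (h : FP k c s X Y a) (hc : 0 < c) (i : ι) : 0 ≤ Y i + s / c * X i := by
  have h3 := h.h3 i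
  have e : Y i + s / c * X i = (s * X i + c * Y i) / c := by field_simp; ring
  rw [e]; positivity

lemma FP.F_low (h : FP k c s X Y a) (hcs : c ^ 2 + s ^ 2 = 1) (hc : 0 < c) (hs : 0 ≤ s) (hsc : s ≤ c) (α : ℝ) :
    s / c / 2 * α * (k * c) - s / c / 4 * α ^ 2 - s / c * ∑ i, phi α (a i) ≤ F (s / c) X Y (k * c) := by
  refine F_lower (s / c) α (by positivity) ((div_le_one hc).2 hsc) X Y a (h.X_nonneg hcs hc.le hs) h.pos
    (h.line hc) h.sep (k * c) (by positivity)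

lemma FP.Q_K (h : FP k c s X Y a) (hc : 0 ≤ c) (hs : 0 ≤ s) (i : ι) : Q (X i) (Y i) (a i) ⊆ K k c s := by
  rintro p ⟨⟨h1, h2⟩, h3, h4⟩
  have e1 := h.h1 i
  have e2 := h.h2 i
  have e3 := h.h3 i
  have e4 := h.h4 i
  refine ⟨?_, ?_, ?_, ?_⟩
  · have := mul_le_mul_of_nonneg_left h1.le hc
    have := mul_le_mul_of_nonneg_left h4.le hs
    linarith
  · have := mul_le_mul_of_nonneg_left h2.le hc
    have := mul_le_mul_of_nonneg_left h3.le hs
    linarith
  · have := mul_le_mul_of_nonneg_left h1.le hs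
    have := mul_le_mul_of_nonneg_left h3.le hc
    linarith
  · have := mul_le_mul_of_nonneg_left h2.le hs
    have := mul_le_mul_of_nonneg_left h4.le hc
    linarith

lemma FP.area (h : FP k c s X Y a) (hcs : c ^ 2 + s ^ 2 = 1) (hc : 0 < c) (hs : 0 ≤ s) (hsc : s ≤ c) (α : ℝ) :
    ∑ i, a i ^ 2 + 4 * (s / c / 2 * α * (k * c) - s / c / 4 * α ^ 2 - s / c * ∑ i, phi α (a i)) ≤ (k : ℝ) ^ 2 := by
  classical
  have hf1 := h.rot hcs
  have hf2 := hf1.rot hcs
  have hf3 := hf2.rot hcs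
  set X1 : ι → ℝ := fun i => k * c - Y i - a i with hX1
  set Y1 : ι → ℝ := fun i => X i - k * s with hY1
  set X2 : ι → ℝ := fun i => k * c - Y1 i - a i with hX2
  set Y2 : ι → ℝ := fun i => X1 i - k * s with hY2
  set X3 : ι → ℝ := fun i => k * c - Y2 i - a i with hX3
  set Y3 : ι → ℝ := fun i => X2 i - k * s with hY3
  have hm : 0 ≤ s / c := by positivity
  have hw : 0 ≤ k * c := by positivity
  have mp1 := g_mp k c s
  have mp2 := mp1.comp mp1
  have mp3 := mp1.comp mp2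
  set m := s / c with hmdef
  set U := ⋃ i ∈ (Finset.univ : Finset ι), Q (X i) (Y i) (a i) with hU
  set E0 := R0 m (k * c) X Y with hE0
  set E1 := (g k c s) ⁻¹' (R0 m (k * c) X1 Y1) with hE1
  set E2 := (g k c s ∘ g k c s) ⁻¹' (R0 m (k * c) X2 Y2) with hE2
  set E3 := (g k c s ∘ (g k c s ∘ g k c s)) ⁻¹' (R0 m (k * c) X3 Y3) with hE3
  have mE0 : MeasurableSet E0 := R0_meas _ _ _ _
  have mE1 : MeasurableSet E1 := mp1.measurable (R0_meas _ _ _ _)
  have mE2 : MeasurableSet E2 := mp2.measurable (R0_meas _ _ _ _)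
  have mE3 : MeasurableSet E3 := mp3.measurable (R0_meas _ _ _ _)
  have vE0 : volume E0 = ENNReal.ofReal (F m X Y (k * c)) := R0_vol m _ hm hw X Y (h.line hc)
  have vE1 : volume E1 = ENNReal.ofReal (F m X1 Y1 (k * c)) := by
    rw [hE1, mp1.measure_preimage (R0_meas _ _ _ _).nullMeasurableSet]
    exact R0_vol m _ hm hw X1 Y1 (hf1.line hc)
  have vE2 : volume E2 = ENNReal.ofReal (F m X2 Y2 (k * c)) := by
    rw [hE2, mp2.measure_preimage (R0_meas _ _ _ _).nullMeasurableSet]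
    exact R0_vol m _ hm hw X2 Y2 (hf2.line hc)
  have vE3 : volume E3 = ENNReal.ofReal (F m X3 Y3 (k * c)) := by
    rw [hE3, mp3.measure_preimage (R0_meas _ _ _ _).nullMeasurableSet]
    exact R0_vol m _ hm hw X3 Y3 (hf3.line hc)
  have mQ : ∀ i, MeasurableSet (Q (X i) (Y i) (a i)) := fun i => measurableSet_Ioo.prod measurableSet_Ioo
  have mU : MeasurableSet U := Finset.measurableSet_biUnion _ (fun i _ => mQ i)
  have vU : volume U = ENNReal.ofReal (∑ i, a i ^ 2) := by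
    rw [hU, measure_biUnion_finset]
    · rw [ENNReal.ofReal_sum_of_nonneg (fun i _ => by positivity)]
      refine Finset.sum_congr rfl (fun i _ => ?_)
      unfold Q
      rw [Measure.volume_eq_prod, Measure.prod_prod, Real.volume_Ioo, Real.volume_Ioo,
        ← ENNReal.ofReal_mul (by linarith [h.pos i])]
      congr 1; ring
    · intro i _ j _ hij
      rw [Function.onFun, Set.disjoint_left]
      rintro p ⟨⟨h1, h2⟩, h3, h4⟩ ⟨⟨h5, h6⟩, h7, h8⟩
      rcases h.sep i j hij with h' | h' | h' | h' <;> linarith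
    · exact fun i _ => mQ i
  -- membership facts
  have sE0 : ∀ p ∈ E0, p ∈ Tri m (k * c) := fun p hp => R0_sub _ _ _ _ hp
  have sE1 : ∀ p ∈ E1, g k c s p ∈ Tri m (k * c) := fun p hp => R0_sub _ _ _ _ hp
  have sE2 : ∀ p ∈ E2, g k c s (g k c s p) ∈ Tri m (k * c) := fun p hp => R0_sub _ _ _ _ hp
  have sE3 : ∀ p ∈ E3, g k c s (g k c s (g k c s p)) ∈ Tri m (k * c) := fun p hp => R0_sub _ _ _ _ hp
  have hkcs : k * s ≤ k * c := mul_le_mul_of_nonneg_left hsc (Nat.cast_nonneg k)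
  have hmkc : m * (k * c) = k * s := by rw [hmdef]; field_simp
  -- explicit descriptions
  have d1 : ∀ p ∈ E1, 0 ≤ p.2 ∧ p.1 < k * s := by
    intro p hp
    obtain ⟨h1, h2, h3, h4⟩ := sE1 p hp
    simp only [g] at h1 h2 h3 h4
    exact ⟨by linarith, by linarith⟩
  have d2 : ∀ p ∈ E2, k * s ≤ p.1 ∧ k * (c - s) < p.2 := by
    intro p hp
    obtain ⟨h1, h2, h3, h4⟩ := sE2 p hp
    simp only [g] at h1 h2 h3 h4
    exact ⟨by linarith, by linarith⟩
  have d3 : ∀ p ∈ E3, p.2 ≤ k * (c - s) ∧ k * c < p.1 := by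
    intro p hp
    obtain ⟨h1, h2, h3, h4⟩ := sE3 p hp
    simp only [g] at h1 h2 h3 h4
    exact ⟨by linarith, by linarith⟩
  have d0 : ∀ p ∈ E0, p.1 ≤ k * c ∧ p.2 < 0 := by
    intro p hp
    obtain ⟨h1, h2, h3, h4⟩ := sE0 p hp
    exact ⟨h2, h4⟩
  have hkcs' : 0 ≤ k * (c - s) := by linarith
  have dis23 : Disjoint E2 E3 := by
    rw [Set.disjoint_left]; intro p hp hq
    linarith [(d2 p hp).2, (d3 p hq).1]
  have dis1 : Disjoint E1 (E2 ∪ E3) := by
    rw [Set.disjoint_left]; rintro p hp (hq | hq)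
    · linarith [(d1 p hp).2, (d2 p hq).1]
    · linarith [(d1 p hp).2, (d3 p hq).2]
  have dis0 : Disjoint E0 (E1 ∪ (E2 ∪ E3)) := by
    rw [Set.disjoint_left]; rintro p hp (hq | hq | hq)
    · linarith [(d0 p hp).2, (d1 p hq).1]
    · linarith [(d0 p hp).2, (d2 p hq).2]
    · linarith [(d0 p hp).1, (d3 p hq).2]
  have disU : Disjoint U (E0 ∪ (E1 ∪ (E2 ∪ E3))) := by
    rw [Set.disjoint_left]; intro p hp hq
    rw [hU, Set.mem_iUnion₂] at hp
    obtain ⟨i, -, hp⟩ := hp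
    have q1 := g_Q k c s _ _ _ p hp
    have q2 := g_Q k c s _ _ _ _ q1
    have q3 := g_Q k c s _ _ _ _ q2
    rcases hq with hq | hq | hq | hq
    · exact R0_disj _ _ X Y a i p hp hq
    · exact R0_disj _ _ X1 Y1 a i _ q1 hq
    · exact R0_disj _ _ X2 Y2 a i _ q2 hq
    · exact R0_disj _ _ X3 Y3 a i _ q3 hq
  have hsub : U ∪ (E0 ∪ (E1 ∪ (E2 ∪ E3))) ⊆ K k c s := by
    have hT := Tri_K k c s hcs hc hs
    rintro p (hp | hp | hp | hp | hp)
    · rw [hU, Set.mem_iUnion₂] at hp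
      obtain ⟨i, -, hp⟩ := hp
      exact h.Q_K hc.le hs i hp
    · exact hT (sE0 p hp)
    · exact g_K k c s hcs p (hT (sE1 p hp))
    · exact g_K k c s hcs p (g_K k c s hcs _ (hT (sE2 p hp)))
    · exact g_K k c s hcs p (g_K k c s hcs _ (g_K k c s hcs _ (hT (sE3 p hp))))
  have hmeas := measure_mono (μ := volume) hsub
  rw [measure_union disU (mE0.union (mE1.union (mE2.union mE3))), measure_union dis0 (mE1.union (mE2.union mE3)),
    measure_union dis1 (mE2.union mE3), measure_union dis23 mE3, volume_K k c s hcs, vU, vE0, vE1, vE2, vE3] at hmeas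
  have l0 := h.F_low hcs hc hs hsc α
  have l1 := hf1.F_low hcs hc hs hsc α
  have l2 := hf2.F_low hcs hc hs hsc α
  have l3 := hf3.F_low hcs hc hs hsc α
  have hreal : ∑ i, a i ^ 2 + (F m X Y (k * c) + (F m X1 Y1 (k * c) + (F m X2 Y2 (k * c) + F m X3 Y3 (k * c))))
      ≤ (k : ℝ) ^ 2 := by
    rw [← ENNReal.ofReal_le_ofReal_iff (by positivity)]
    refine le_trans (ENNReal.ofReal_add_le.trans (add_le_add le_rfl (ENNReal.ofReal_add_le.trans
      (add_le_add le_rfl (ENNReal.ofReal_add_le.trans (add_le_add le_rfl ENNReal.ofReal_add_le)))))) hmeas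
  linarith

/-- Part B. -/
theorem FP.partB (h : FP k c s X Y a) (hcs : c ^ 2 + s ^ 2 = 1) (hc : 0 < c) (hs : 0 ≤ s) (hsc : s ≤ c)
    (hks : 1 ≤ k * s) : 2 * ∑ i, a i ≤ Fintype.card ι + (k : ℝ) ^ 2 - 1 := by
  have hs0 : 0 < s := by
    rcases hs.eq_or_lt with h0 | h0
    · rw [← h0] at hks; norm_num at hks
    · exact h0
  have key : ∀ α : ℝ, 0 ≤ α → α + s / c * α ^ 2 ≤ 1 → 1 ≤ 2 * α * (k * s) - s / c * α ^ 2 →
      2 * ∑ i, a i ≤ Fintype.card ι + (k : ℝ) ^ 2 - 1 := by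
    intro α hα h1 h2
    have hA := h.area hcs hc hs hsc α
    have hphi : ∀ i, 4 * (s / c) * phi α (a i) ≤ (1 - a i) ^ 2 := fun i => phi_le (s / c) α (a i) (by positivity) h1
    have hsum : 4 * (s / c) * ∑ i, phi α (a i) ≤ ∑ i, (1 - a i) ^ 2 := by
      rw [Finset.mul_sum]; exact Finset.sum_le_sum (fun i _ => hphi i)
    have hexp : ∑ i, (1 - a i) ^ 2 = Fintype.card ι - 2 * ∑ i, a i + ∑ i, a i ^ 2 := by
      have : ∀ i, (1 - a i) ^ 2 = 1 - 2 * a i + a i ^ 2 := fun i => by ring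
      simp_rw [this]
      rw [Finset.sum_add_distrib, Finset.sum_sub_distrib, ← Finset.mul_sum]
      simp
    have e1 : 4 * (s / c / 2 * α * (k * c) - s / c / 4 * α ^ 2 - s / c * ∑ i, phi α (a i))
        = 2 * α * (k * s) - s / c * α ^ 2 - 4 * (s / c) * ∑ i, phi α (a i) := by
      field_simp
      ring
    rw [e1] at hA
    linarith
  have hk2 : (2 : ℝ) ≤ k := by
    have h1 : (1 : ℝ) < k := by
      by_contra hcon
      push Not at hcon
      have : k * s ≤ 1 * s := mul_le_mul_of_nonneg_right hcon hs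
      have h2 : s < 1 := by nlinarith
      linarith
    have h2 : 1 < k := by exact_mod_cast h1
    exact_mod_cast h2
  rcases le_total (s / c) (3 / 4) with hm | hm
  · refine key (2 / 3) (by norm_num) (by nlinarith) (by nlinarith)
  · have hm1 : s / c ≤ 1 := (div_le_one hc).2 hsc
    have hm' : 3 / 4 * c ≤ s := by rw [le_div_iff₀ hc] at hm; exact hm
    have hs35 : 3 / 5 ≤ s := by nlinarith
    refine key (3 / 5) (by norm_num) (by nlinarith) (by nlinarith)

end Pool.H71.SQ
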