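import Pool.Agent.H71.SQ.Frame

/-! From packings by tilted squares to the frame theorem. -/

namespace Pool.H71.SQ

open Finset MeasureTheory

/-- The closed square with corner `(x, y)`, side `s` and direction `θ`, written as in the frozen statement. -/
def Sq (x y θ s : ℝ) : Set (ℝ × ℝ) :=
  {p : ℝ × ℝ | ∃ a ∈ Set.Icc (0:ℝ) s, ∃ b ∈ Set.Icc (0:ℝ) s,
    p = (x + a * Real.cos θ - b * Real.sin θ, y + a * Real.sin θ + b * Real.cos θ)}

/-- A packing of `r` squares of positive side in the unit square. -/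
structure Packing {r : ℕ} (x y θ s : Fin r → ℝ) : Prop where
  pos : ∀ i, 0 < s i
  box : ∀ i, Sq (x i) (y i) (θ i) (s i) ⊆ Set.Icc (0:ℝ) 1 ×ˢ Set.Icc (0:ℝ) 1
  disj : ∀ i j, i ≠ j →
    Disjoint (interior (Sq (x i) (y i) (θ i) (s i))) (interior (Sq (x j) (y j) (θ j) (s j)))

lemma cs_pos (δ : ℝ) : 0 < |Real.cos δ| + |Real.sin δ| := by
  have h := Real.cos_sq_add_sin_sq δ
  by_contra hcon
  push Not at hcon
  have h1 : |Real.cos δ| = 0 := le_antisymm (by linarith [abs_nonneg (Real.sin δ)]) (abs_nonneg _)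
  have h2 : |Real.sin δ| = 0 := le_antisymm (by linarith [abs_nonneg (Real.cos δ)]) (abs_nonneg _)
  rw [abs_eq_zero] at h1 h2
  rw [h1, h2] at h
  norm_num at h

/-- the concentric square in direction `φ` -/
lemma inscribed (x y θ s φ : ℝ) (k : ℝ) (hk : 0 < k) (ξ η q : ℝ)
    (hq : q = s / (|Real.cos (θ - φ)| + |Real.sin (θ - φ)|))
    (hξ : |ξ| ≤ k * q / 2) (hη : |η| ≤ k * q / 2) :
    ((Real.cos φ * ξ - Real.sin φ * η) / k + (x + s / 2 * (Real.cos θ - Real.sin θ)),
     (Real.sin φ * ξ + Real.cos φ * η) / k + (y + s / 2 * (Real.sin θ + Real.cos θ))) ∈ Sq x y θ s := by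
  have hpos := cs_pos (θ - φ)
  have hcs := Real.cos_sq_add_sin_sq θ
  set C := Real.cos (θ - φ) with hC
  set S := Real.sin (θ - φ) with hS
  have hC' : C = Real.cos θ * Real.cos φ + Real.sin θ * Real.sin φ := by rw [hC, Real.cos_sub]
  have hS' : S = Real.sin θ * Real.cos φ - Real.cos θ * Real.sin φ := by rw [hS, Real.sin_sub]
  have hqs : (|C| + |S|) * q = s := by rw [hq]; field_simp
  have hξ' : |ξ / k| ≤ q / 2 := by
    rw [abs_div, abs_of_pos hk, div_le_iff₀ hk]; linarith
  have hη' : |η / k| ≤ q / 2 := by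
    rw [abs_div, abs_of_pos hk, div_le_iff₀ hk]; linarith
  set ξ' := ξ / k with hξ1
  set η' := η / k with hη1
  have hu : |C * ξ' + S * η'| ≤ s / 2 := by
    refine (abs_add_le _ _).trans ?_
    rw [abs_mul, abs_mul]
    have h1 := mul_le_mul_of_nonneg_left hξ' (abs_nonneg C)
    have h2 := mul_le_mul_of_nonneg_left hη' (abs_nonneg S)
    linarith
  have hv : |-(S * ξ') + C * η'| ≤ s / 2 := by
    refine (abs_add_le _ _).trans ?_
    rw [abs_neg, abs_mul, abs_mul]
    have h1 := mul_le_mul_of_nonneg_left hξ' (abs_nonneg S)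
    have h2 := mul_le_mul_of_nonneg_left hη' (abs_nonneg C)
    linarith
  rw [abs_le] at hu hv
  refine ⟨s / 2 + (C * ξ' + S * η'), ⟨by linarith, by linarith⟩,
    s / 2 + (-(S * ξ') + C * η'), ⟨by linarith, by linarith⟩, ?_⟩
  have e1 : ξ = k * ξ' := by rw [hξ1]; field_simp
  have e2 : η = k * η' := by rw [hη1]; field_simp
  have e3 : (Real.cos φ * ξ - Real.sin φ * η) / k = Real.cos φ * ξ' - Real.sin φ * η' := by
    rw [e1, e2]; field_simp
  have e4 : (Real.sin φ * ξ + Real.cos φ * η) / k = Real.sin φ * ξ' + Real.cos φ * η' := by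
    rw [e1, e2]; field_simp
  rw [e3, e4]
  ext
  · simp only
    have e5 : (s / 2 + (C * ξ' + S * η')) * Real.cos θ - (s / 2 + (-(S * ξ') + C * η')) * Real.sin θ
        = s / 2 * (Real.cos θ - Real.sin θ) + (Real.cos θ ^ 2 + Real.sin θ ^ 2) * (Real.cos φ * ξ' - Real.sin φ * η') := by
      rw [hC', hS']; ring
    rw [hcs] at e5
    linarith
  · simp only
    have e5 : (s / 2 + (C * ξ' + S * η')) * Real.sin θ + (s / 2 + (-(S * ξ') + C * η')) * Real.cos θ
        = s / 2 * (Real.sin θ + Real.cos θ) + (Real.cos θ ^ 2 + Real.sin θ ^ 2) * (Real.sin φ * ξ' + Real.cos φ * η') := by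
      rw [hC', hS']; ring
    rw [hcs] at e5
    linarith

/-- The reduction: a packing gives an axis-parallel packing in the rotated square. -/
lemma Packing.toGP {r : ℕ} {x y θ s : Fin r → ℝ} (h : Packing x y θ s) (φ : ℝ) (k : ℕ) (hk : 1 ≤ k) :
    ∃ X Y : Fin r → ℝ, GP k (Real.cos φ) (Real.sin φ) X Y
      (fun i => k * (s i / (|Real.cos (θ i - φ)| + |Real.sin (θ i - φ)|))) := by
  have hk0 : (0 : ℝ) < k := by exact_mod_cast hk
  have hcs := Real.cos_sq_add_sin_sq φ
  set c := Real.cos φ with hc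
  set σ := Real.sin φ with hσ
  set q : Fin r → ℝ := fun i => s i / (|Real.cos (θ i - φ)| + |Real.sin (θ i - φ)|) with hq
  set C1 : Fin r → ℝ := fun i => x i + s i / 2 * (Real.cos (θ i) - Real.sin (θ i)) with hC1
  set C2 : Fin r → ℝ := fun i => y i + s i / 2 * (Real.sin (θ i) + Real.cos (θ i)) with hC2
  set U : Fin r → ℝ := fun i => k * (c * C1 i + σ * C2 i) with hU
  set V : Fin r → ℝ := fun i => k * (-σ * C1 i + c * C2 i) with hV
  have hqpos : ∀ i, 0 < q i := fun i => div_pos (h.pos i) (cs_pos _)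
  -- frame points of the small square lie in the big square
  have hin : ∀ i a b, |a - U i| ≤ k * q i / 2 → |b - V i| ≤ k * q i / 2 →
      ((c * a - σ * b) / k, (σ * a + c * b) / k) ∈ Sq (x i) (y i) (θ i) (s i) := by
    intro i a b ha hb
    have h1 := inscribed (x i) (y i) (θ i) (s i) φ k hk0 (a - U i) (b - V i) (q i) rfl ha hb
    have e1 : (Real.cos φ * (a - U i) - Real.sin φ * (b - V i)) / k
        + (x i + s i / 2 * (Real.cos (θ i) - Real.sin (θ i))) = (c * a - σ * b) / k := by
      have : (c * a - σ * b) / k - (Real.cos φ * (a - U i) - Real.sin φ * (b - V i)) / k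
          = (c ^ 2 + σ ^ 2) * C1 i := by
        simp only [hU, hV]; rw [← hc, ← hσ]; field_simp; ring
      rw [hcs, one_mul] at this
      simp only [hC1] at this
      linarith
    have e2 : (Real.sin φ * (a - U i) + Real.cos φ * (b - V i)) / k
        + (y i + s i / 2 * (Real.sin (θ i) + Real.cos (θ i))) = (σ * a + c * b) / k := by
      have : (σ * a + c * b) / k - (Real.sin φ * (a - U i) + Real.cos φ * (b - V i)) / k
          = (c ^ 2 + σ ^ 2) * C2 i := by
        simp only [hU, hV]; rw [← hc, ← hσ]; field_simp; ring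
      rw [hcs, one_mul] at this
      simp only [hC2] at this
      linarith
    rw [e1, e2] at h1
    exact h1
  refine ⟨fun i => U i - k * q i / 2, fun i => V i - k * q i / 2, ?_, ?_, ?_⟩
  · intro i; exact mul_pos hk0 (hqpos i)
  · intro i a b h1 h2 h3 h4
    have h5 : k * (s i / (|Real.cos (θ i - φ)| + |Real.sin (θ i - φ)|)) = k * q i := rfl
    rw [h5] at h2 h4
    have hm := h.box i (hin i a b (abs_le.2 ⟨by linarith, by linarith⟩) (abs_le.2 ⟨by linarith, by linarith⟩))
    rw [Set.mem_prod, Set.mem_Icc, Set.mem_Icc] at hm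
    obtain ⟨⟨g1, g2⟩, g3, g4⟩ := hm
    simp only at g1 g2 g3 g4
    rw [div_le_one hk0] at g2 g4
    have g1' : 0 ≤ c * a - σ * b := by
      have := mul_nonneg g1 hk0.le
      rwa [div_mul_cancel₀ _ hk0.ne'] at this
    have g3' : 0 ≤ σ * a + c * b := by
      have := mul_nonneg g3 hk0.le
      rwa [div_mul_cancel₀ _ hk0.ne'] at this
    exact ⟨g1', g2, g3', g4⟩
  · intro i j hij
    have h5 : ∀ i, k * (s i / (|Real.cos (θ i - φ)| + |Real.sin (θ i - φ)|)) = k * q i := fun _ => rfl
    simp only [h5]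
    by_contra hcon
    push Not at hcon
    obtain ⟨n1, n2, n3, n4⟩ := hcon
    -- the open frame square is inside the interior
    have hop : ∀ i, {p : ℝ × ℝ | |k * (c * p.1 + σ * p.2) - U i| < k * q i / 2 ∧
        |k * (-σ * p.1 + c * p.2) - V i| < k * q i / 2} ⊆ interior (Sq (x i) (y i) (θ i) (s i)) := by
      intro i
      refine interior_maximal ?_ ?_
      · rintro p ⟨p1, p2⟩
        have := hin i (k * (c * p.1 + σ * p.2)) (k * (-σ * p.1 + c * p.2)) p1.le p2.le
        have e1 : (c * (k * (c * p.1 + σ * p.2)) - σ * (k * (-σ * p.1 + c * p.2))) / k = (c ^ 2 + σ ^ 2) * p.1 := by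
          field_simp; ring
        have e2 : (σ * (k * (c * p.1 + σ * p.2)) + c * (k * (-σ * p.1 + c * p.2))) / k = (c ^ 2 + σ ^ 2) * p.2 := by
          field_simp; ring
        rw [e1, e2, hcs, one_mul, one_mul] at this
        exact this
      · have f1 : Continuous (fun p : ℝ × ℝ => |k * (c * p.1 + σ * p.2) - U i|) := by fun_prop
        have f2 : Continuous (fun p : ℝ × ℝ => |k * (-σ * p.1 + c * p.2) - V i|) := by fun_prop
        exact (isOpen_lt f1 continuous_const).inter (isOpen_lt f2 continuous_const)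
    obtain ⟨a, ha1, ha2, ha3, ha4⟩ : ∃ a : ℝ, U i - k * q i / 2 < a ∧ a < U i + k * q i / 2 ∧
        U j - k * q j / 2 < a ∧ a < U j + k * q j / 2 := by
      have hi := mul_pos hk0 (hqpos i)
      have hj := mul_pos hk0 (hqpos j)
      have h6 : max (U i - k * q i / 2) (U j - k * q j / 2) < min (U i + k * q i / 2) (U j + k * q j / 2) := by
        rw [max_lt_iff, lt_min_iff, lt_min_iff]
        refine ⟨⟨by linarith, by linarith⟩, ⟨by linarith, by linarith⟩⟩
      obtain ⟨a, h7, h8⟩ := exists_between h6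
      rw [max_lt_iff] at h7
      rw [lt_min_iff] at h8
      exact ⟨a, h7.1, h8.1, h7.2, h8.2⟩
    obtain ⟨b, hb1, hb2, hb3, hb4⟩ : ∃ b : ℝ, V i - k * q i / 2 < b ∧ b < V i + k * q i / 2 ∧
        V j - k * q j / 2 < b ∧ b < V j + k * q j / 2 := by
      have hi := mul_pos hk0 (hqpos i)
      have hj := mul_pos hk0 (hqpos j)
      have h6 : max (V i - k * q i / 2) (V j - k * q j / 2) < min (V i + k * q i / 2) (V j + k * q j / 2) := by
        rw [max_lt_iff, lt_min_iff, lt_min_iff]
        refine ⟨⟨by linarith, by linarith⟩, ⟨by linarith, by linarith⟩⟩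
      obtain ⟨b, h7, h8⟩ := exists_between h6
      rw [max_lt_iff] at h7
      rw [lt_min_iff] at h8
      exact ⟨b, h7.1, h8.1, h7.2, h8.2⟩
    have e1 : k * (c * ((c * a - σ * b) / k) + σ * ((σ * a + c * b) / k)) = (c ^ 2 + σ ^ 2) * a := by
      field_simp; ring
    have e2 : k * (-σ * ((c * a - σ * b) / k) + c * ((σ * a + c * b) / k)) = (c ^ 2 + σ ^ 2) * b := by
      field_simp; ring
    rw [hcs, one_mul] at e1 e2
    have m1 : ((c * a - σ * b) / k, (σ * a + c * b) / k) ∈ interior (Sq (x i) (y i) (θ i) (s i)) := by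
      apply hop i
      refine ⟨?_, ?_⟩
      · simp only [e1]; rw [abs_lt]; constructor <;> linarith
      · simp only [e2]; rw [abs_lt]; constructor <;> linarith
    have m2 : ((c * a - σ * b) / k, (σ * a + c * b) / k) ∈ interior (Sq (x j) (y j) (θ j) (s j)) := by
      apply hop j
      refine ⟨?_, ?_⟩
      · simp only [e1]; rw [abs_lt]; constructor <;> linarith
      · simp only [e2]; rw [abs_lt]; constructor <;> linarith
    exact Set.disjoint_left.1 (h.disj i j hij) m1 m2

/-- The directional inequality for all packings. -/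
theorem Packing.directional {r : ℕ} {x y θ s : Fin r → ℝ} (h : Packing x y θ s) (φ : ℝ) (k : ℕ) (hk : 1 ≤ k)
    (hodd : Odd (r + k)) :
    ∑ i, s i / (|Real.cos (θ i - φ)| + |Real.sin (θ i - φ)|) ≤ (r + (k : ℝ) ^ 2 - 1) / (2 * k) := by
  obtain ⟨X, Y, hG⟩ := h.toGP φ k hk
  have hk0 : (0 : ℝ) < k := by exact_mod_cast hk
  have h1 := hG.main hk (by rw [Fintype.card_fin]; exact hodd) (Real.cos_sq_add_sin_sq φ)
  rw [Fintype.card_fin, ← Finset.mul_sum] at h1
  rw [le_div_iff₀ (by positivity)]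
  linarith

end Pool.H71.SQ
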